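import Pool.Agent.H29.CW.Defs
import Pool.Agent.H61.PO.Few

/-!
# MP_c830f0_an, CW-3: subsets of arcs (note 2949, (0.5), (0.6))

`IsArc σ p q`: `α : ℝ → S` continuous and injective on `Icc 0 1` with image `σ`.  The inverse is continuous on `σ` (compact to Hausdorff:
`Continuous.isClosedEmbedding` for the restriction to `Icc 0 1`).  So for `A ⊆ σ` preconnected, `{t ∈ Icc 0 1 | α t ∈ A}` is preconnected, i.e. `OrdConnected`;
conversely the image of an interval is preconnected.  `ivl`: closed nonempty preconnected `A ⊆ σ` is `α '' Icc s t`.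
`A \ {α u}` with `A = α '' Icc s t`, `u ∈ Icc s t` is preconnected iff `u = s` or `u = t`.
`interior_empty`: `IsArc` sets have empty interior: see `few_arc` (private) in `Pool/Agent/H61/PO/Few.lean`, or use `SCC.interior_empty`.
-/

set_option autoImplicit false

namespace Pool.Agent.H29.CW

open Set Filter Topology Metric
open Pool.Agent.H61.PO (IsArc Surf)

variable {S : Type*} [MetricSpace S] {A B : Set S}

/-- the parameters of the points of `A` -/
def Prm (α : ℝ → S) (A : Set S) : Set ℝ := {t | t ∈ Icc (0 : ℝ) 1 ∧ α t ∈ A}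

theorem Prm.sub (α : ℝ → S) (A : Set S) : Prm α A ⊆ Icc (0 : ℝ) 1 := fun _ h => h.1

theorem Prm.image {α : ℝ → S} (hA : A ⊆ α '' Icc 0 1) : α '' Prm α A = A := by
  ext y
  constructor
  · rintro ⟨t, ht, rfl⟩
    exact ht.2
  · intro hy
    obtain ⟨t, ht, rfl⟩ := hA hy
    exact ⟨t, ⟨ht, hy⟩, rfl⟩

theorem Prm.of_image {α : ℝ → S} (hi : InjOn α (Icc 0 1)) {I : Set ℝ} (hI : I ⊆ Icc 0 1) :
    Prm α (α '' I) = I := by
  ext t
  constructor
  · rintro ⟨h1, s, hs, hst⟩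
    rwa [← hi (hI hs) h1 hst]
  · intro ht
    exact ⟨hI ht, t, ht, rfl⟩

theorem Prm.diff {α : ℝ → S} (hi : InjOn α (Icc 0 1)) {u : ℝ} (hu : u ∈ Icc (0 : ℝ) 1) :
    Prm α (A \ {α u}) = Prm α A \ {u} := by
  ext t
  constructor
  · rintro ⟨h1, h2, h3⟩
    refine ⟨⟨h1, h2⟩, ?_⟩
    rintro rfl
    exact h3 rfl
  · rintro ⟨⟨h1, h2⟩, h3⟩
    refine ⟨h1, h2, ?_⟩
    intro h4
    exact h3 (hi h1 hu h4)

theorem pre_image_iff {α : ℝ → S} (hc : ContinuousOn α (Icc 0 1)) (hi : InjOn α (Icc 0 1))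
    {I : Set ℝ} (hI : I ⊆ Icc 0 1) : IsPreconnected (α '' I) ↔ I.OrdConnected := by
  constructor
  · intro h
    let f : Icc (0 : ℝ) 1 → S := fun u => α u
    have hf : Continuous f := hc.comp_continuous continuous_subtype_val (fun u => u.2)
    have hfi : Function.Injective f := fun u v h => Subtype.ext (hi u.2 v.2 h)
    have hfe := hf.isClosedEmbedding hfi
    have h1 : f '' (Subtype.val ⁻¹' I) = α '' I := by
      ext y
      constructor
      · rintro ⟨u, hu, rfl⟩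
        exact ⟨u, hu, rfl⟩
      · rintro ⟨u, hu, rfl⟩
        exact ⟨⟨u, hI hu⟩, hu, rfl⟩
    rw [← h1] at h
    have h2 := (hfe.isEmbedding.isInducing.isPreconnected_image).1 h
    have h3 := h2.image Subtype.val continuous_subtype_val.continuousOn
    have h4 : (Subtype.val '' (Subtype.val ⁻¹' I : Set (Icc (0 : ℝ) 1)) : Set ℝ) = I := by
      ext y
      constructor
      · rintro ⟨u, hu, rfl⟩
        exact hu
      · intro hy
        exact ⟨⟨y, hI hy⟩, hy, rfl⟩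
    rw [h4] at h3
    exact h3.ordConnected
  · intro h
    exact h.isPreconnected.image α (hc.mono hI)

theorem Prm.pre {α : ℝ → S} (hc : ContinuousOn α (Icc 0 1)) (hi : InjOn α (Icc 0 1))
    (hA : A ⊆ α '' Icc 0 1) : IsPreconnected A ↔ (Prm α A).OrdConnected := by
  have h := pre_image_iff hc hi (Prm.sub α A)
  rwa [Prm.image hA] at h

theorem Prm.closed {α : ℝ → S} (hc : ContinuousOn α (Icc 0 1)) (hA : IsClosed A) :
    IsClosed (Prm α A) := hc.preimage_isClosed_of_isClosed isClosed_Icc hA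

theorem ord_diff_iff {I : Set ℝ} (hI : I.OrdConnected) {u : ℝ} :
    (I \ {u}).OrdConnected ↔ ¬ ((∃ a ∈ I, a < u) ∧ ∃ b ∈ I, u < b) := by
  constructor
  · rintro h ⟨⟨a, ha, hau⟩, b, hb, hub⟩
    have := h.out (x := a) ⟨ha, hau.ne⟩ (y := b) ⟨hb, hub.ne'⟩ ⟨hau.le, hub.le⟩
    exact this.2 rfl
  · intro h
    refine ⟨fun a ha b hb t ht => ⟨hI.out ha.1 hb.1 ht, ?_⟩⟩
    rintro rfl
    refine h ⟨⟨a, ha.1, lt_of_le_of_ne ht.1 ha.2⟩, b, hb.1, lt_of_le_of_ne ht.2 ?_⟩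
    intro h'
    exact hb.2 h'.symm

theorem cut_iff {α : ℝ → S} (hc : ContinuousOn α (Icc 0 1)) (hi : InjOn α (Icc 0 1))
    (hA : A ⊆ α '' Icc 0 1) (hp : IsPreconnected A) {u : ℝ} (hu : u ∈ Icc (0 : ℝ) 1) :
    ¬ IsPreconnected (A \ {α u}) ↔ (∃ a ∈ Prm α A, a < u) ∧ ∃ b ∈ Prm α A, u < b := by
  rw [Prm.pre hc hi (diff_subset.trans hA), Prm.diff hi hu,
    ord_diff_iff ((Prm.pre hc hi hA).1 hp), not_not]

/-- the image of a closed interval -/
theorem seg_facts {α : ℝ → S} (hc : ContinuousOn α (Icc 0 1)) (hi : InjOn α (Icc 0 1))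
    {s t : ℝ} (hs : 0 ≤ s) (ht : t ≤ 1) (hst : s < t) :
    IsPreconnected (α '' Icc s t) ∧ IsClosed (α '' Icc s t) ∧
      (∀ e ∈ α '' Icc s t, (IsPreconnected ((α '' Icc s t) \ {e}) ↔ e = α s ∨ e = α t)) := by
  have hI : Icc s t ⊆ Icc 0 1 := Icc_subset_Icc hs ht
  have hp : IsPreconnected (α '' Icc s t) := (pre_image_iff hc hi hI).2 ordConnected_Icc
  refine ⟨hp, (isCompact_Icc.image_of_continuousOn (hc.mono hI)).isClosed, ?_⟩
  rintro _ ⟨u, hu, rfl⟩
  have h := cut_iff hc hi (image_mono hI) hp (hI hu)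
  rw [Prm.of_image hi hI] at h
  constructor
  · intro h1
    by_contra h2
    push Not at h2
    have hus : s < u := lt_of_le_of_ne hu.1 (by rintro rfl; exact h2.1 rfl)
    have hut : u < t := lt_of_le_of_ne hu.2 (by rintro rfl; exact h2.2 rfl)
    exact h.2 ⟨⟨s, left_mem_Icc.2 hst.le, hus⟩, t, right_mem_Icc.2 hst.le, hut⟩ h1
  · intro h1
    by_contra h2
    obtain ⟨⟨a, ha, hau⟩, b, hb, hub⟩ := h.1 h2
    rcases h1 with h1 | h1
    · have := hi (hI hu) (hI (left_mem_Icc.2 hst.le)) h1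
      have := ha.1
      linarith
    · have := hi (hI hu) (hI (right_mem_Icc.2 hst.le)) h1
      have := hb.2
      linarith

/-- a closed nonempty connected subset of an arc is the image of a closed interval -/
theorem seg_eq {α : ℝ → S} (hc : ContinuousOn α (Icc 0 1)) (hi : InjOn α (Icc 0 1))
    (hA : A ⊆ α '' Icc 0 1) (hp : IsPreconnected A) (hcl : IsClosed A) (hn : A.Nontrivial) :
    ∃ s t, 0 ≤ s ∧ s < t ∧ t ≤ 1 ∧ A = α '' Icc s t ∧ Prm α A = Icc s t := by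
  have h1 : IsConnected (Prm α A) := by
    refine ⟨?_, ((Prm.pre hc hi hA).1 hp).isPreconnected⟩
    obtain ⟨x, hx⟩ := hn.nonempty
    obtain ⟨t, ht, rfl⟩ := hA hx
    exact ⟨t, ht, hx⟩
  have h2 : IsCompact (Prm α A) := isCompact_Icc.of_isClosed_subset (Prm.closed hc hcl)
    (Prm.sub α A)
  have h3 := eq_Icc_of_connected_compact h1 h2
  set s := sInf (Prm α A) with hs
  set t := sSup (Prm α A) with ht
  have h4 : A = α '' Icc s t := by rw [← h3, Prm.image hA]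
  have h5 : (Icc s t).Nonempty := by
    rw [← h3]
    exact h1.nonempty
  have h6 : s ≤ t := nonempty_Icc.1 h5
  have h7 : s ≠ t := by
    intro h
    rw [h4, h, Icc_self, image_singleton] at hn
    exact not_nontrivial_singleton hn
  have h8 : s ∈ Icc (0 : ℝ) 1 := Prm.sub α A (h3 ▸ left_mem_Icc.2 h6)
  have h9 : t ∈ Icc (0 : ℝ) 1 := Prm.sub α A (h3 ▸ right_mem_Icc.2 h6)
  exact ⟨s, t, h8.1, lt_of_le_of_ne h6 h7, h9.2, h4, h3⟩

theorem InArc.mono (h : InArc B) (hAB : A ⊆ B) : InArc A := by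
  obtain ⟨σ, p, q, h1, h2⟩ := h
  exact ⟨σ, p, q, h1, hAB.trans h2⟩

theorem InArc.par (h : InArc A) : ∃ α : ℝ → S, ContinuousOn α (Icc 0 1) ∧ InjOn α (Icc 0 1) ∧
    A ⊆ α '' Icc 0 1 := by
  obtain ⟨σ, p, q, ⟨α, hc, hi, hσ, -, -⟩, h2⟩ := h
  exact ⟨α, hc, hi, hσ ▸ h2⟩

theorem InArc.interior_empty (hM : Surf S) (h : InArc A) : interior A = ∅ := by
  by_contra hne
  obtain ⟨x, hx⟩ := nonempty_iff_ne_empty.2 hne
  obtain ⟨e, he, -, hr⟩ := hM x (interior A) (isOpen_interior.mem_nhds hx)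
  obtain ⟨α, hc, hi, hA⟩ := h.par
  let f : Icc (0 : ℝ) 1 → S := fun u => α u
  have hf : Continuous f := hc.comp_continuous continuous_subtype_val (fun u => u.2)
  have hfi : Function.Injective f := fun u v h => Subtype.ext (hi u.2 v.2 h)
  have hfe := hf.isClosedEmbedding hfi
  have hex : ∀ z, ∃ u : Icc (0 : ℝ) 1, f u = e z := by
    intro z
    have h1 : e z ∈ A := interior_subset (hr ⟨z, rfl⟩)
    obtain ⟨u, hu, hue⟩ := hA h1
    exact ⟨⟨u, hu⟩, hue⟩
  choose β hβ using hex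
  have hβc : Continuous β := by
    refine hfe.isEmbedding.continuous_iff.2 ?_
    have : f ∘ β = e := funext hβ
    rw [this]
    exact he.continuous
  have hβi : Function.Injective β := by
    intro z z' h
    apply he.injective
    rw [← hβ z, ← hβ z', h]
  let b : ℂ → ℝ := fun z => (β z : ℝ)
  have hbc : Continuous b := continuous_subtype_val.comp hβc
  have hbi : Function.Injective b := fun z z' h => hβi (Subtype.ext h)
  have main : ∀ z z' : ℂ, b z < b z' → False := by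
    intro z z' hlt
    have hoc : (range b).OrdConnected := (isPreconnected_range hbc).ordConnected
    obtain ⟨w, hw⟩ := hoc.out ⟨z, rfl⟩ ⟨z', rfl⟩
      (show (b z + b z') / 2 ∈ Icc (b z) (b z') from ⟨by linarith, by linarith⟩)
    have hzw : z ≠ w := by
      rintro rfl
      linarith
    have hzw' : z' ≠ w := by
      rintro rfl
      linarith
    have hpre : IsPreconnected ({w}ᶜ : Set ℂ) :=
      (isConnected_compl_singleton_of_one_lt_rank (by
        rw [Complex.rank_real_complex]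
        norm_num) w).isPreconnected
    have hoc2 : (b '' {w}ᶜ).OrdConnected := (hpre.image b hbc.continuousOn).ordConnected
    obtain ⟨w', hw', hww⟩ := hoc2.out ⟨z, hzw, rfl⟩ ⟨z', hzw', rfl⟩
      (show b w ∈ Icc (b z) (b z') from ⟨by linarith, by linarith⟩)
    exact hw' (hbi hww)
  rcases lt_trichotomy (b 0) (b 1) with h | h | h
  · exact main 0 1 h
  · exact zero_ne_one (hbi h)
  · exact main 1 0 h

/-- a closed connected subset with more than one point is an arc; its end points are the points which do not cut it -/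
theorem InArc.ends (h : InArc A) (hA : IsPreconnected A) (hc : IsClosed A) (hn : A.Nontrivial) :
    ∃ p q, p ≠ q ∧ IsArc A p q ∧ ∀ e ∈ A, (IsPreconnected (A \ {e}) ↔ e = p ∨ e = q) := by
  obtain ⟨α, hα, hi, hs⟩ := h.par
  obtain ⟨s, t, h0, hst, h1, hAe, -⟩ := seg_eq hα hi hs hA hc hn
  have hI : Icc s t ⊆ Icc 0 1 := Icc_subset_Icc h0 h1
  have hseg := seg_facts hα hi h0 h1 hst
  rw [← hAe] at hseg
  have hd : 0 < t - s := by linarith
  have hmaps : MapsTo (fun u : ℝ => s + u * (t - s)) (Icc 0 1) (Icc s t) := by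
    intro u hu
    constructor
    · have := mul_nonneg hu.1 hd.le
      show s ≤ s + u * (t - s)
      linarith
    · have := mul_le_mul_of_nonneg_right hu.2 hd.le
      show s + u * (t - s) ≤ t
      linarith
  refine ⟨α s, α t, ?_, ⟨fun u => α (s + u * (t - s)), ?_, ?_, ?_, ?_, ?_⟩, hseg.2.2⟩
  · intro he
    have := hi (hI (left_mem_Icc.2 hst.le)) (hI (right_mem_Icc.2 hst.le)) he
    linarith
  · exact (hα.mono hI).comp (by fun_prop) hmaps
  · intro u hu v hv huv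
    have := hi (hI (hmaps hu)) (hI (hmaps hv)) huv
    have h2 : u * (t - s) = v * (t - s) := by
      have : s + u * (t - s) = s + v * (t - s) := this
      linarith
    exact mul_right_cancel₀ hd.ne' h2
  · rw [hAe]
    ext y
    constructor
    · rintro ⟨v, hv, rfl⟩
      refine ⟨(v - s) / (t - s), ⟨div_nonneg (by linarith [hv.1]) hd.le, ?_⟩, ?_⟩
      · rw [div_le_one hd]
        linarith [hv.2]
      · show α (s + (v - s) / (t - s) * (t - s)) = α v
        rw [div_mul_cancel₀ _ hd.ne']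
        congr 1
        ring
    · rintro ⟨u, hu, rfl⟩
      exact ⟨_, hmaps hu, rfl⟩
  · simp
  · show α (s + 1 * (t - s)) = α t
    congr 1
    ring

/-- if `B` meets `A` and leaves `A` then it contains an end point of `A`, which cuts `A ∪ B` -/
theorem InArc.beyond (h : InArc (A ∪ B)) (hA : IsPreconnected A) (hAc : IsClosed A)
    (hn : A.Nontrivial) (hB : IsPreconnected B) (hBc : IsClosed B) (hAB : (A ∩ B).Nonempty)
    (hBA : ¬ B ⊆ A) : ∃ e ∈ A ∩ B, IsPreconnected (A \ {e}) ∧ ¬ IsPreconnected ((A ∪ B) \ {e}) := by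
  obtain ⟨α, hα, hi, hs⟩ := h.par
  have hsA : A ⊆ α '' Icc 0 1 := subset_union_left.trans hs
  have hsB : B ⊆ α '' Icc 0 1 := subset_union_right.trans hs
  obtain ⟨s, t, h0, hst, h1, hAe, hPA⟩ := seg_eq hα hi hsA hA hAc hn
  have hI : Icc s t ⊆ Icc 0 1 := Icc_subset_Icc h0 h1
  have hseg := seg_facts hα hi h0 h1 hst
  rw [← hAe] at hseg
  have hJ := (Prm.pre hα hi hsB).1 hB
  have hU : IsPreconnected (A ∪ B) := by
    obtain ⟨x, hxA, hxB⟩ := hAB
    exact IsPreconnected.union x hxA hxB hA hB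
  obtain ⟨x, hxA, hxB⟩ := hAB
  obtain ⟨w, hw, rfl⟩ := hsA hxA
  have hwA : w ∈ Icc s t := hPA ▸ (show w ∈ Prm α A from ⟨hw, hxA⟩)
  have hwB : w ∈ Prm α B := ⟨hw, hxB⟩
  obtain ⟨y, hyB, hyA⟩ := not_subset.1 hBA
  obtain ⟨v, hv, rfl⟩ := hsB hyB
  have hvB : v ∈ Prm α B := ⟨hv, hyB⟩
  have hvA : v ∉ Icc s t := by
    intro hh
    exact hyA (hAe ▸ mem_image_of_mem α hh)
  have hsm : s ∈ Icc s t := left_mem_Icc.2 hst.le
  have htm : t ∈ Icc s t := right_mem_Icc.2 hst.le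
  have hsub : ∀ r ∈ Icc s t, r ∈ Prm α (A ∪ B) := fun r hr =>
    ⟨hI hr, Or.inl (hAe ▸ mem_image_of_mem α hr)⟩
  by_cases hvs : v < s
  · have hsB' : s ∈ Prm α B := hJ.out hvB hwB ⟨hvs.le, hwA.1⟩
    have hsA' : α s ∈ A := hAe ▸ mem_image_of_mem α hsm
    refine ⟨α s, ⟨hsA', hsB'.2⟩, (hseg.2.2 _ hsA').2 (Or.inl rfl), ?_⟩
    rw [cut_iff hα hi hs hU (hI hsm)]
    exact ⟨⟨v, ⟨hv, Or.inr hyB⟩, hvs⟩, t, hsub t htm, hst⟩
  · have hvt : t < v := by
      by_contra hh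
      exact hvA ⟨not_lt.1 hvs, not_lt.1 hh⟩
    have htB' : t ∈ Prm α B := hJ.out hwB hvB ⟨hwA.2, hvt.le⟩
    have htA' : α t ∈ A := hAe ▸ mem_image_of_mem α htm
    refine ⟨α t, ⟨htA', htB'.2⟩, (hseg.2.2 _ htA').2 (Or.inr rfl), ?_⟩
    rw [cut_iff hα hi hs hU (hI htm)]
    exact ⟨⟨s, hsub s hsm, hst⟩, v, ⟨hv, Or.inr hyB⟩, hvt⟩

/-- a cut point of `A` is a cut point of `B ⊇ A` -/
theorem InArc.cut_mono (h : InArc B) (hAB : A ⊆ B) (hA : IsPreconnected A)
    (hB : IsPreconnected B) {e : S} (he : ¬ IsPreconnected (A \ {e})) :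
    ¬ IsPreconnected (B \ {e}) := by
  obtain ⟨α, hα, hi, hs⟩ := h.par
  have heA : e ∈ A := by
    by_contra hh
    rw [diff_singleton_eq_self hh] at he
    exact he hA
  obtain ⟨u, hu, rfl⟩ := hs (hAB heA)
  obtain ⟨⟨a, ha, hau⟩, b, hb, hub⟩ := (cut_iff hα hi (hAB.trans hs) hA hu).1 he
  exact (cut_iff hα hi hs hB hu).2 ⟨⟨a, ⟨ha.1, hAB ha.2⟩, hau⟩, b, ⟨hb.1, hAB hb.2⟩, hub⟩

theorem InArc.inter_preconn (h : InArc (A ∪ B)) (hA : IsPreconnected A)
    (hB : IsPreconnected B) : IsPreconnected (A ∩ B) := by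
  obtain ⟨α, hα, hi, hs⟩ := h.par
  have hsA : A ⊆ α '' Icc 0 1 := subset_union_left.trans hs
  have hsB : B ⊆ α '' Icc 0 1 := subset_union_right.trans hs
  rw [Prm.pre hα hi (inter_subset_left.trans hsA)]
  have h1 := (Prm.pre hα hi hsA).1 hA
  have h2 := (Prm.pre hα hi hsB).1 hB
  have h3 : Prm α (A ∩ B) = Prm α A ∩ Prm α B := by
    ext t
    constructor
    · rintro ⟨h4, h5, h6⟩
      exact ⟨⟨h4, h5⟩, h4, h6⟩
    · rintro ⟨⟨h4, h5⟩, -, h6⟩
      exact ⟨h4, h5, h6⟩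
  rw [h3]
  exact h1.inter h2

/-- the subarc between two points -/
theorem InArc.sub_arc (h : InArc A) (hA : IsPreconnected A) (hc : IsClosed A) {x y : S}
    (hx : x ∈ A) (hy : y ∈ A) (hxy : x ≠ y) : ∃ B ⊆ A, IsPreconnected B ∧ IsClosed B ∧ x ∈ B ∧
      y ∈ B ∧ ∀ e ∈ B, (IsPreconnected (B \ {e}) ↔ e = x ∨ e = y) := by
  obtain ⟨α, hα, hi, hs⟩ := h.par
  have hJ := (Prm.pre hα hi hs).1 hA
  obtain ⟨u, hu, rfl⟩ := hs hx
  obtain ⟨v, hv, rfl⟩ := hs hy
  have key : ∀ u v : ℝ, u ∈ Icc (0 : ℝ) 1 → v ∈ Icc (0 : ℝ) 1 → α u ∈ A → α v ∈ A → u < v →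
      α '' Icc u v ⊆ A ∧ IsPreconnected (α '' Icc u v) ∧ IsClosed (α '' Icc u v) ∧
        α u ∈ α '' Icc u v ∧ α v ∈ α '' Icc u v ∧
        ∀ e ∈ α '' Icc u v, (IsPreconnected ((α '' Icc u v) \ {e}) ↔ e = α u ∨ e = α v) := by
    intro u v hu hv hx hy huv
    obtain ⟨h1, h2, h3⟩ := seg_facts hα hi hu.1 hv.2 huv
    refine ⟨?_, h1, h2, mem_image_of_mem α (left_mem_Icc.2 huv.le),
      mem_image_of_mem α (right_mem_Icc.2 huv.le), h3⟩
    rintro _ ⟨w, hw, rfl⟩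
    exact (hJ.out (show u ∈ Prm α A from ⟨hu, hx⟩) (show v ∈ Prm α A from ⟨hv, hy⟩) hw).2
  rcases lt_trichotomy u v with huv | huv | huv
  · exact ⟨_, key u v hu hv hx hy huv⟩
  · exact absurd (by rw [huv]) hxy
  · obtain ⟨h1, h2, h3, h4, h5, h6⟩ := key v u hv hu hy hx huv
    refine ⟨_, h1, h2, h3, h5, h4, fun e he => ?_⟩
    rw [h6 e he, or_comm]

/-- three points in order -/
theorem InArc.three (h : InArc A) (hA : IsPreconnected A) (hc : IsClosed A) {x y z : S}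
    (hx : x ∈ A) (hy : y ∈ A) (hz : z ∈ A) (hxy : x ≠ y) (hxz : x ≠ z) (hyz : y ≠ z) :
    ∃ a b d, a ∈ ({x, y, z} : Set S) ∧ b ∈ ({x, y, z} : Set S) ∧ d ∈ ({x, y, z} : Set S) ∧
      a ≠ b ∧ d ≠ b ∧ a ≠ d ∧ ∃ L ⊆ A, IsPreconnected L ∧ IsClosed L ∧ a ∈ L ∧ b ∈ L ∧ d ∈ L ∧
        ∀ e ∈ L, (IsPreconnected (L \ {e}) ↔ e = a ∨ e = d) := by
  obtain ⟨α, hα, hi, hs⟩ := h.par
  have hJ := (Prm.pre hα hi hs).1 hA
  obtain ⟨u, hu, rfl⟩ := hs hx
  obtain ⟨v, hv, rfl⟩ := hs hy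
  obtain ⟨w, hw, rfl⟩ := hs hz
  have key : ∀ u v w : ℝ, u ∈ Icc (0 : ℝ) 1 → v ∈ Icc (0 : ℝ) 1 → w ∈ Icc (0 : ℝ) 1 → α u ∈ A →
      α w ∈ A → u < v → v < w →
      α u ≠ α v ∧ α w ≠ α v ∧ α u ≠ α w ∧ ∃ L ⊆ A, IsPreconnected L ∧ IsClosed L ∧ α u ∈ L ∧
        α v ∈ L ∧ α w ∈ L ∧ ∀ e ∈ L, (IsPreconnected (L \ {e}) ↔ e = α u ∨ e = α w) := by
    intro u v w hu hv hw hx hz huv hvw
    have huw := huv.trans hvw
    obtain ⟨h1, h2, h3⟩ := seg_facts hα hi hu.1 hw.2 huw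
    refine ⟨fun h => huv.ne (hi hu hv h), fun h => hvw.ne' (hi hw hv h),
      fun h => huw.ne (hi hu hw h), α '' Icc u w, ?_, h1, h2,
      mem_image_of_mem α (left_mem_Icc.2 huw.le), mem_image_of_mem α ⟨huv.le, hvw.le⟩,
      mem_image_of_mem α (right_mem_Icc.2 huw.le), h3⟩
    rintro _ ⟨r, hr, rfl⟩
    exact (hJ.out (show u ∈ Prm α A from ⟨hu, hx⟩) (show w ∈ Prm α A from ⟨hw, hz⟩) hr).2
  have huv : u ≠ v := fun h => hxy (by rw [h])
  have huw : u ≠ w := fun h => hxz (by rw [h])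
  have hvw : v ≠ w := fun h => hyz (by rw [h])
  rcases lt_or_gt_of_ne huv with h1 | h1
  · rcases lt_or_gt_of_ne hvw with h2 | h2
    · exact ⟨α u, α v, α w, by simp, by simp, by simp, key u v w hu hv hw hx hz h1 h2⟩
    · rcases lt_or_gt_of_ne huw with h3 | h3
      · exact ⟨α u, α w, α v, by simp, by simp, by simp, key u w v hu hw hv hx hy h3 h2⟩
      · exact ⟨α w, α u, α v, by simp, by simp, by simp, key w u v hw hu hv hz hy h3 h1⟩
  · rcases lt_or_gt_of_ne huw with h2 | h2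
    · exact ⟨α v, α u, α w, by simp, by simp, by simp, key v u w hv hu hw hy hz h1 h2⟩
    · rcases lt_or_gt_of_ne hvw with h3 | h3
      · exact ⟨α v, α w, α u, by simp, by simp, by simp, key v w u hv hw hu hy hx h3 h2⟩
      · exact ⟨α w, α v, α u, by simp, by simp, by simp, key w v u hw hv hu hz hx h3 h1⟩

/-- if `B` is connected, misses the end points `x`, `y` of `A` and meets `A` then `B ⊆ A` -/
theorem InArc.sub_of_miss (h : InArc (A ∪ B)) (hA : IsPreconnected A) (hAc : IsClosed A)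
    (hn : A.Nontrivial) (hB : IsPreconnected B) (hBc : IsClosed B) (hAB : (A ∩ B).Nonempty)
    (hmiss : ∀ e ∈ A, IsPreconnected (A \ {e}) → e ∉ B) : B ⊆ A := by
  by_contra hBA
  obtain ⟨e, he, h1, -⟩ := h.beyond hA hAc hn hB hBc hAB hBA
  exact hmiss e he.1 h1 he.2

end Pool.Agent.H29.CW
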