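import Pool.Agent.H29.CW.F

/-!
# MP_c830f0_an, CW-7: (C): the set of spines is closed (note 2949)
-/

set_option autoImplicit false

namespace Pool.Agent.H29.CW

open Set Filter Topology Metric
open Pool.Agent.H61.PO (IsArc Surf)

variable {S : Type*} [MetricSpace S] [CompactSpace S] {f : S ≃ₜ S} {c : ℝ}

/-- small unstable continua of a nonspine contain no spines -/
theorem ns_near (H : Hyp f c) (hM : Surf S) {z : S} (hz : NS f c z) :
    ∃ r : ℝ, 0 < r ∧ r ≤ c / 32 ∧ ∀ y ∈ Cu f r z, NS f c y := by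
  have hc := H.pos
  obtain ⟨κ, hκ, h⟩ := cut_u H hM hz
  have hk : 0 < min κ (c / 16) := lt_min hκ (by linarith)
  have hcut := h (min κ (c / 16)) hk (min_le_left _ _)
  have harc : InArc (Cu f (c / 16) z) :=
    (H.arcU z).mono (Cs_mono (f := f.symm) (by linarith) (by linarith))
  have hpre : IsPreconnected (Cu f (c / 16) z) := Cs_preconn (f := f.symm)
  have hcl : IsClosed (Cu f (c / 16) z) := Cs_closed (f := f.symm)
  have hcutA : ¬ IsPreconnected (Cu f (c / 16) z \ {z}) :=
    harc.cut_mono (Cs_mono (f := f.symm) hk.le (min_le_right _ _))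
      (Cs_preconn (f := f.symm)) hpre hcut
  have hzA : z ∈ Cu f (c / 16) z := mem_Cs_self (f := f.symm) (by linarith)
  have hnt : (Cu f (c / 16) z).Nontrivial := by
    by_contra hn
    rw [not_nontrivial_iff] at hn
    apply hcutA
    have h0 : Cu f (c / 16) z \ {z} = ∅ := by
      ext y
      constructor
      · rintro ⟨hy, hyz⟩
        exact absurd (hn hy hzA) hyz
      · intro hy
        exact absurd hy (Set.notMem_empty y)
    rw [h0]
    exact isPreconnected_empty
  obtain ⟨p, q, -, -, hends⟩ := harc.ends hpre hcl hnt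
  have hzp : z ≠ p := fun h1 => hcutA ((hends z hzA).mpr (Or.inl h1))
  have hzq : z ≠ q := fun h1 => hcutA ((hends z hzA).mpr (Or.inr h1))
  have hdp : 0 < dist z p := dist_pos.mpr hzp
  have hdq : 0 < dist z q := dist_pos.mpr hzq
  obtain ⟨r, hr, h1, h2, h3⟩ : ∃ r : ℝ, 0 < r ∧ r ≤ c / 32 ∧ r ≤ dist z p / 2 ∧
      r ≤ dist z q / 2 :=
    ⟨min (c / 32) (min (dist z p / 2) (dist z q / 2)),
      lt_min (by linarith) (lt_min (by linarith) (by linarith)),
      min_le_left _ _, (min_le_right _ _).trans (min_le_left _ _),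
      (min_le_right _ _).trans (min_le_right _ _)⟩
  refine ⟨r, hr, h1, fun y hy => ?_⟩
  have hyz : dist y z ≤ r := Cs_dist (f := f.symm) hy
  have hyA : y ∈ Cu f (c / 16) z := Cs_mono (f := f.symm) hr.le (by linarith) hy
  have hsub : Cu f (c / 16) z ⊆ Cu f (c / 8) y := by
    have h4 : Cu f (c / 16) z ⊆ Cs f.symm (2 * (c / 16)) y :=
      sub_Cs_two (f := f.symm) hpre hyA Subset.rfl
    exact h4.trans (Cs_mono (f := f.symm) (by linarith) (by linarith))
  refine ns_of_cut H hpre hsub fun h4 => ?_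
  rcases (hends y hyA).mp h4 with h5 | h5
  · rw [h5, dist_comm] at hyz
    linarith
  · rw [h5, dist_comm] at hyz
    linarith

/-- the distance of points near a nonspine end of the limit to the second end point -/
private theorem to_end (H : Hyp f c) (hM : Surf S) {U : Ultrafilter ℕ}
    (hU : (U : Filter ℕ) ≤ atTop) {p q s : ℕ → S} {l z : S} {r : ℝ} (hr : 0 < r)
    (hrc : r ≤ c / 32) (hp : ∀ n, ¬ NS f c (p n)) (hpz : Tendsto p U (𝓝 z))
    (hq : ∀ n, ∀ e ∈ Cu f r (p n), IsPreconnected (Cu f r (p n) \ {e}) → e = p n ∨ e = q n)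
    (hnt : ∀ᶠ n in (U : Filter ℕ), (Cu f r (p n)).Nontrivial)
    (hs : ∀ᶠ n in (U : Filter ℕ), s n ∈ Cu f r (p n)) (hsl : Tendsto s U (𝓝 l))
    (hl : NS f c l) (hcut : IsPreconnected (UL U (fun n => Cu f r (p n)) \ {l})) :
    Tendsto q U (𝓝 l) := by
  have hc := H.pos
  rw [Metric.tendsto_nhds]
  intro ε hε
  obtain ⟨a, ha, h1, h2⟩ : ∃ a : ℝ, 0 < a ∧ a ≤ c / 32 ∧ a ≤ ε / 2 :=
    ⟨min (c / 32) (ε / 2), lt_min (by linarith) (by linarith), min_le_left _ _,
      min_le_right _ _⟩
  have hlL : l ∈ UL U (fun n => Cu f r (p n)) := ⟨s, hs, hsl⟩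
  have hLz : UL U (fun n => Cu f r (p n)) ⊆ Cu f r z :=
    UL_sub_Cs (f := f.symm) hU hr.le hpz (Eventually.of_forall fun n => Subset.rfl)
  have hLl : UL U (fun n => Cu f r (p n)) ⊆ Cu f (c / 8) l := by
    have h3 : UL U (fun n => Cu f r (p n)) ⊆ Cs f.symm (2 * r) l :=
      sub_Cs_two (f := f.symm) (UL_preconn hU (Eventually.of_forall fun n =>
        Cs_preconn (f := f.symm))) hlL hLz
    exact h3.trans (Cs_mono (f := f.symm) (by linarith) (by linarith))
  have h3 : ¬ ∀ᶠ n in (U : Filter ℕ), Cu f a (s n) ⊆ Cu f r (p n) := fun h3 =>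
    not_end H hM hU hsl (Eventually.of_forall fun n => Cs_preconn (f := f.symm)) hl ha h3 hLl
      hcut
  have h4 : ∀ᶠ n in (U : Filter ℕ), ¬ Cu f a (s n) ⊆ Cu f r (p n) := by
    rw [← Ultrafilter.eventually_not] at h3
    exact h3
  have h5 : ∀ᶠ n in (U : Filter ℕ), dist (s n) l < ε / 2 :=
    hsl (Metric.ball_mem_nhds l (half_pos hε))
  filter_upwards [h4, h5, hnt, hs] with n hn1 hn2 hn3 hn4
  have hself : s n ∈ Cu f a (s n) := mem_Cs_self (f := f.symm) ha.le
  have hsub1 : Cu f r (p n) ⊆ Cs f.symm (2 * r) (s n) :=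
    sub_Cs_two (f := f.symm) (Cs_preconn (f := f.symm)) hn4 Subset.rfl
  have hprR : IsPreconnected (Cu f r (p n)) := Cs_preconn (f := f.symm)
  have hprA : IsPreconnected (Cu f a (s n)) := Cs_preconn (f := f.symm)
  have hprU : IsPreconnected (Cu f r (p n) ∪ Cu f a (s n)) :=
    IsPreconnected.union (s n) hn4 hself hprR hprA
  have hsubU : Cu f r (p n) ∪ Cu f a (s n) ⊆ Cs f.symm (c / 16) (s n) := by
    refine union_subset ?_ ?_
    · exact hsub1.trans (Cs_mono (f := f.symm) (by linarith) (by linarith))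
    · exact Cs_mono (f := f.symm) ha.le (by linarith)
  have harc : InArc (Cu f r (p n) ∪ Cu f a (s n)) := by
    refine (H.arcU (s n)).mono (hsubU.trans ?_)
    exact Cs_mono (f := f.symm) (by linarith) (by linarith)
  obtain ⟨e, he, hpe, hne⟩ := harc.beyond hprR (Cs_closed (f := f.symm)) hn3 hprA
    (Cs_closed (f := f.symm)) ⟨s n, hn4, hself⟩ hn1
  have hens : NS f c e := by
    refine ns_of_cut H hprU ?_ hne
    have h6 : Cu f r (p n) ∪ Cu f a (s n) ⊆ Cs f.symm (2 * (c / 16)) e :=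
      sub_Cs_two (f := f.symm) hprU (Or.inl he.1) hsubU
    exact h6.trans (Cs_mono (f := f.symm) (by linarith) (by linarith))
  have heq : e = q n := by
    rcases hq n e he.1 hpe with h6 | h6
    · exact absurd (h6 ▸ hens) (hp n)
    · exact h6
  have h7 : dist e (s n) ≤ a := Cs_dist (f := f.symm) he.2
  rw [heq] at h7
  have h8 := dist_triangle (q n) (s n) l
  linarith

theorem ns_open (H : Hyp f c) (hM : Surf S) : IsOpen {z | NS f c z} := by
  have hc := H.pos
  rw [Metric.isOpen_iff]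
  intro z hz
  have hzN : NS f c z := hz
  by_contra hcon
  push Not at hcon
  obtain ⟨r, hr, hrc, hnear⟩ := ns_near H hM hzN
  have h1 : ∀ n : ℕ, ∃ y, dist y z < 1 / ((n : ℝ) + 1) ∧ ¬ NS f c y := by
    intro n
    obtain ⟨y, hy1, hy2⟩ := Set.not_subset.mp (hcon (1 / ((n : ℝ) + 1)) Nat.one_div_pos_of_nat)
    exact ⟨y, hy1, hy2⟩
  choose p hp1 hp2 using h1
  obtain ⟨U, hU⟩ : ∃ U : Ultrafilter ℕ, (U : Filter ℕ) ≤ atTop :=
    ⟨hyperfilter ℕ, Nat.hyperfilter_le_atTop⟩
  have hpz : Tendsto p U (𝓝 z) := by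
    have h2 : Tendsto (fun n => dist (p n) z) atTop (𝓝 0) :=
      squeeze_zero (fun n => dist_nonneg) (fun n => (hp1 n).le)
        tendsto_one_div_add_atTop_nhds_zero_nat
    exact (tendsto_iff_dist_tendsto_zero.mpr h2).mono_left hU
  -- the second end point
  have h2 : ∀ n : ℕ, ∃ q : S, ∀ e ∈ Cu f r (p n), IsPreconnected (Cu f r (p n) \ {e}) →
      e = p n ∨ e = q := by
    intro n
    have hmem : p n ∈ Cu f r (p n) := mem_Cs_self (f := f.symm) hr.le
    by_cases hnt : (Cu f r (p n)).Nontrivial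
    · have harc : InArc (Cu f r (p n)) :=
        (H.arcU (p n)).mono (Cs_mono (f := f.symm) hr.le (by linarith))
      obtain ⟨u, v, -, -, hends⟩ := harc.ends (Cs_preconn (f := f.symm))
        (Cs_closed (f := f.symm)) hnt
      have hpe : IsPreconnected (Cu f r (p n) \ {p n}) := by
        by_contra h3
        exact hp2 n (ns_of_cut H (Cs_preconn (f := f.symm))
          (Cs_mono (f := f.symm) hr.le (by linarith)) h3)
      rcases (hends (p n) hmem).mp hpe with h3 | h3
      · refine ⟨v, fun e he hee => ?_⟩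
        rcases (hends e he).mp hee with h4 | h4
        · exact Or.inl (h4.trans h3.symm)
        · exact Or.inr h4
      · refine ⟨u, fun e he hee => ?_⟩
        rcases (hends e he).mp hee with h4 | h4
        · exact Or.inr h4
        · exact Or.inl (h4.trans h3.symm)
    · rw [not_nontrivial_iff] at hnt
      exact ⟨p n, fun e he _ => Or.inl (hnt he hmem)⟩
  choose q hq using h2
  have hLz : UL U (fun n => Cu f r (p n)) ⊆ Cu f r z :=
    UL_sub_Cs (f := f.symm) hU hr.le hpz (Eventually.of_forall fun n => Subset.rfl)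
  have hLpre : IsPreconnected (UL U fun n => Cu f r (p n)) :=
    UL_preconn hU (Eventually.of_forall fun n => Cs_preconn (f := f.symm))
  have hLcl : IsClosed (UL U fun n => Cu f r (p n)) := UL_closed hU _
  have hzL : z ∈ UL U (fun n => Cu f r (p n)) :=
    ⟨p, Eventually.of_forall fun n => mem_Cs_self (f := f.symm) hr.le, hpz⟩
  have hzcut : ¬ IsPreconnected (UL U (fun n => Cu f r (p n)) \ {z}) := by
    refine not_end H hM hU hpz (Eventually.of_forall fun n => Cs_preconn (f := f.symm)) hzN hr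
      (Eventually.of_forall fun n => Subset.rfl) (hLz.trans ?_)
    exact Cs_mono (f := f.symm) hr.le (by linarith)
  have hLnt : (UL U fun n => Cu f r (p n)).Nontrivial := by
    by_contra hn
    rw [not_nontrivial_iff] at hn
    apply hzcut
    have h0 : UL U (fun n => Cu f r (p n)) \ {z} = ∅ := by
      ext y
      constructor
      · rintro ⟨hy, hyz⟩
        exact absurd (hn hy hzL) hyz
      · intro hy
        exact absurd hy (Set.notMem_empty y)
    rw [h0]
    exact isPreconnected_empty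
  have hLarc : InArc (UL U fun n => Cu f r (p n)) :=
    (H.arcU z).mono (hLz.trans (Cs_mono (f := f.symm) hr.le (by linarith)))
  obtain ⟨l, l', hll, harc, hends⟩ := hLarc.ends hLpre hLcl hLnt
  have hnt : ∀ᶠ n in (U : Filter ℕ), (Cu f r (p n)).Nontrivial := by
    obtain ⟨u, ⟨u', hu1, hu2⟩, v, ⟨v', hv1, hv2⟩, huv⟩ := hLnt
    have h3 : ∀ᶠ n in (U : Filter ℕ), u' n ≠ v' n := by
      have h4 : 0 < dist u v := dist_pos.mpr huv
      have h5 : Tendsto (fun n => dist (u' n) (v' n)) U (𝓝 (dist u v)) := hu2.dist hv2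
      filter_upwards [h5.eventually (lt_mem_nhds h4)] with n hn hne
      rw [hne, dist_self] at hn
      exact lt_irrefl _ hn
    filter_upwards [hu1, hv1, h3] with n h4 h5 h6
    exact ⟨u' n, h4, v' n, h5, h6⟩
  have hlmem : l ∈ UL U (fun n => Cu f r (p n)) := by
    obtain ⟨α, -, -, hα, h0, -⟩ := harc
    rw [hα, ← h0]
    exact ⟨0, ⟨le_refl _, zero_le_one⟩, rfl⟩
  have hlmem' : l' ∈ UL U (fun n => Cu f r (p n)) := by
    obtain ⟨α, -, -, hα, -, h0⟩ := harc
    rw [hα, ← h0]
    exact ⟨1, ⟨zero_le_one, le_refl _⟩, rfl⟩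
  have hgo : ∀ w ∈ UL U (fun n => Cu f r (p n)),
      IsPreconnected (UL U (fun n => Cu f r (p n)) \ {w}) → Tendsto q U (𝓝 w) := by
    intro w hw hcut
    obtain ⟨s, hs, hsl⟩ := id hw
    exact to_end H hM hU hr hrc hp2 hpz hq hnt hs hsl (hnear w (hLz hw)) hcut
  have h3 := hgo l hlmem ((hends l hlmem).mpr (Or.inl rfl))
  have h4 := hgo l' hlmem' ((hends l' hlmem').mpr (Or.inr rfl))
  exact hll (tendsto_nhds_unique h3 h4)

end Pool.Agent.H29.CW
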