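import Pool.Agent.H61.PO.Defs

/-!
# MP_c830f0_an: cw-hyperbolic homeomorphisms of surfaces (note 2949): definitions
-/

set_option autoImplicit false

namespace Pool.Agent.H29.CW

open Set Filter Topology Metric
open Pool.Agent.H61.PO (IsArc Surf)

variable {S : Type*} [MetricSpace S]

/-- local stable set: `{y | d (f^k y) (f^k x) ≤ a for all k ≥ 0}` -/
def Ws (f : S ≃ₜ S) (a : ℝ) (x : S) : Set S :=
  {y | ∀ k : ℕ, dist ((⇑f)^[k] y) ((⇑f)^[k] x) ≤ a}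

/-- local unstable set: `{y | d (f^(-k) y) (f^(-k) x) ≤ a for all k ≥ 0}` -/
def Wu (f : S ≃ₜ S) (a : ℝ) (x : S) : Set S :=
  {y | ∀ k : ℕ, dist ((⇑f.symm)^[k] y) ((⇑f.symm)^[k] x) ≤ a}

/-- local stable continuum: connected component of `x` in `Ws f a x` -/
def Cs (f : S ≃ₜ S) (a : ℝ) (x : S) : Set S := connectedComponentIn (Ws f a x) x

/-- local unstable continuum: connected component of `x` in `Wu f a x` -/
def Cu (f : S ≃ₜ S) (a : ℝ) (x : S) : Set S := connectedComponentIn (Wu f a x) x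

/-- cw-expansive -/
def CwExp (f : S ≃ₜ S) : Prop :=
  ∃ c : ℝ, 0 < c ∧ ∀ x, IsTotallyDisconnected (Ws f c x ∩ Wu f c x)

/-- cw_N-expansive -/
def CwNExp (N : ℕ) (f : S ≃ₜ S) : Prop :=
  CwExp f ∧ ∃ c : ℝ, 0 < c ∧ ∀ x, (Cs f c x ∩ Cu f c x).encard ≤ N

/-- cw_F-expansive -/
def CwFExp (f : S ≃ₜ S) : Prop :=
  CwExp f ∧ ∃ c : ℝ, 0 < c ∧ ∀ x, (Cs f c x ∩ Cu f c x).Finite

/-- cw-local-product-structure -/
def LPS (f : S ≃ₜ S) : Prop :=
  ∀ ε : ℝ, 0 < ε → ∃ δ : ℝ, 0 < δ ∧ ∀ x y, dist x y < δ → (Cs f ε x ∩ Cu f ε y).Nonempty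

/-- cw_N-hyperbolic -/
def CwNHyp (N : ℕ) (f : S ≃ₜ S) : Prop := CwNExp N f ∧ LPS f

/-- cw_F-hyperbolic -/
def CwFHyp (f : S ≃ₜ S) : Prop := CwFExp f ∧ LPS f

/-- `A` is contained in an arc -/
def InArc (A : Set S) : Prop := ∃ (σ : Set S) (p q : S), IsArc σ p q ∧ A ⊆ σ

/-- the local stable and unstable continua of some size are contained in arcs -/
def LocArcs (f : S ≃ₜ S) : Prop :=
  ∃ c : ℝ, 0 < c ∧ ∀ x, InArc (Cs f c x) ∧ InArc (Cu f c x)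

/-- the hypotheses, at one scale `c` -/
structure Hyp (f : S ≃ₜ S) (c : ℝ) : Prop where
  pos : 0 < c
  fin : ∀ x, (Cs f c x ∩ Cu f c x).Finite
  arcS : ∀ x, InArc (Cs f c x)
  arcU : ∀ x, InArc (Cu f c x)
  lps : LPS f

/-- `e` is a (`u`-)nonspine -/
def NS (f : S ≃ₜ S) (c : ℝ) (e : S) : Prop := ¬ IsPreconnected (Cu f (c / 8) e \ {e})

/-- the plaque of `p` in `D` -/
def Pl (f : S ≃ₜ S) (c : ℝ) (D : Set S) (p : S) : Set S :=
  connectedComponentIn (Cu f (c / 8) p ∩ D) p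

/-- limit of the sets `A n` along an ultrafilter -/
def UL (U : Ultrafilter ℕ) (A : ℕ → Set S) : Set S :=
  {z | ∃ x : ℕ → S, (∀ᶠ n in (U : Filter ℕ), x n ∈ A n) ∧ Tendsto x U (𝓝 z)}

theorem Wu_eq (f : S ≃ₜ S) (a : ℝ) (x : S) : Wu f a x = Ws f.symm a x := rfl

theorem Cu_eq (f : S ≃ₜ S) (a : ℝ) (x : S) : Cu f a x = Cs f.symm a x := rfl

theorem Cu_symm (f : S ≃ₜ S) (a : ℝ) (x : S) : Cu f.symm a x = Cs f a x := rfl

theorem Cs_symm (f : S ≃ₜ S) (a : ℝ) (x : S) : Cs f.symm a x = Cu f a x := rfl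

theorem LPS.symm {f : S ≃ₜ S} (h : LPS f) : LPS f.symm := by
  intro ε hε
  obtain ⟨δ, hδ, h1⟩ := h ε hε
  refine ⟨δ, hδ, fun x y hxy => ?_⟩
  rw [dist_comm] at hxy
  have h2 := h1 y x hxy
  rw [Set.inter_comm] at h2
  exact h2

/-- everything is symmetric under `f ↦ f⁻¹` -/
theorem Hyp.symm {f : S ≃ₜ S} {c : ℝ} (H : Hyp f c) : Hyp f.symm c where
  pos := H.pos
  fin := fun x => by
    have h := H.fin x
    rw [Set.inter_comm] at h
    exact h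
  arcS := H.arcU
  arcU := H.arcS
  lps := H.lps.symm

end Pool.Agent.H29.CW
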