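import Pool.Agent.H29.CW.Defs

/-!
# MP_c830f0_an, CW-9a: the extremal argument of (U) (note 2949)
-/

set_option autoImplicit false

namespace Pool.Agent.H29.CW

open Set Filter Topology Metric

variable {S : Type*} [MetricSpace S]

/-- the extremal argument, in a disc `D` with plaques `P p` and their sides -/
theorem no_double {D B A : Set S} {P V W : S → Set S} (_hD : IsOpen D)
    (hself : ∀ p ∈ D, p ∈ P p) (hPD : ∀ p ∈ D, P p ⊆ D) (hPc : ∀ p ∈ D, IsPreconnected (P p))
    (hPeq : ∀ p ∈ D, ∀ q ∈ P p, P q = P p)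
    (hV : ∀ p ∈ D, IsOpen (V p)) (hW : ∀ p ∈ D, IsOpen (W p))
    (hVc : ∀ p ∈ D, IsConnected (V p)) (hWc : ∀ p ∈ D, IsConnected (W p))
    (hVW : ∀ p ∈ D, Disjoint (V p) (W p)) (hu : ∀ p ∈ D, V p ∪ W p = D \ P p)
    (hclV : ∀ p ∈ D, P p ⊆ closure (V p)) (hclW : ∀ p ∈ D, P p ⊆ closure (W p))
    (hB : IsCompact B) (hBD : B ⊆ D) {x : S} (hx : x ∈ D) (hA : A = P x)
    (hcross : ∀ p ∈ B \ A, (B ∩ V p).Nonempty ∧ (B ∩ W p).Nonempty) : B ⊆ A := by
  classical
  subst hA
  -- the outer side `O p` and the inner side `I p`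
  have key : ∀ p ∈ B \ P x, ∃ O I : Set S, IsOpen O ∧ IsOpen I ∧ IsPreconnected I ∧
      Disjoint O I ∧ O ∪ I = D \ P p ∧ P p ⊆ closure I ∧ P x ⊆ I ∧ (B ∩ O).Nonempty := by
    rintro p ⟨hpB, hpA⟩
    have hpD := hBD hpB
    have hdis : P x ⊆ V p ∪ W p := by
      rw [hu p hpD]
      intro q hq
      refine ⟨hPD x hx hq, fun hqp => hpA ?_⟩
      rw [← hPeq x hx q hq, hPeq p hpD q hqp]
      exact hself p hpD
    obtain ⟨h1, h2⟩ := hcross p ⟨hpB, hpA⟩
    rcases (hPc x hx).subset_or_subset (hV p hpD) (hW p hpD) (hVW p hpD) hdis with h | h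
    · exact ⟨W p, V p, hW p hpD, hV p hpD, (hVc p hpD).isPreconnected, (hVW p hpD).symm,
        by rw [union_comm]; exact hu p hpD, hclV p hpD, h, h2⟩
    · exact ⟨V p, W p, hV p hpD, hW p hpD, (hWc p hpD).isPreconnected, hVW p hpD,
        hu p hpD, hclW p hpD, h, h1⟩
  choose! O I hO hI hIc hOI hOIu hcl hAI hne using key
  have hxA : x ∈ P x := hself x hx
  -- monotonicity
  have mono : ∀ p ∈ B \ P x, ∀ q ∈ B \ P x, q ∉ I p → O q ⊆ O p ∧ (q ∈ O p → q ∉ O q) := by
    intro p hp q hq hqI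
    have hpD := hBD hp.1
    have hqD := hBD hq.1
    have hsub : I p ⊆ I q ∧ Disjoint (P p) (O q) := by
      by_cases hqP : q ∈ P p
      · have e := hPeq p hpD q hqP
        have h1 : I p ⊆ O q ∪ I q := by
          rw [hOIu q hq, e, ← hOIu p hp]
          exact subset_union_right
        refine ⟨(hIc p hp).subset_right_of_subset_union (hO q hq) (hI q hq) (hOI q hq) h1
          ⟨x, hAI p hp hxA, hAI q hq hxA⟩, ?_⟩
        rw [Set.disjoint_left]
        intro z hz hz2
        have h2 : z ∈ D \ P q := by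
          rw [← hOIu q hq]
          exact Or.inl hz2
        exact h2.2 (e ▸ hz)
      · have hqO : q ∈ O p := by
          have h1 : q ∈ O p ∪ I p := by
            rw [hOIu p hp]
            exact ⟨hqD, hqP⟩
          exact h1.resolve_right hqI
        have hPP : Disjoint (P p) (P q) := by
          rw [Set.disjoint_left]
          intro z hz hz2
          apply hqP
          rw [← hPeq p hpD z hz, hPeq q hqD z hz2]
          exact hself q hqD
        have hPqO : P q ⊆ O p := by
          refine (hPc q hqD).subset_left_of_subset_union (hO p hp) (hI p hp) (hOI p hp) ?_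
            ⟨q, hself q hqD, hqO⟩
          rw [hOIu p hp]
          exact fun z hz => ⟨hPD q hqD hz, fun h => Set.disjoint_left.1 hPP h hz⟩
        have hIP : IsPreconnected (I p ∪ P p) :=
          (hIc p hp).subset_closure subset_union_left (union_subset subset_closure (hcl p hp))
        have h3 : I p ∪ P p ⊆ O q ∪ I q := by
          rw [hOIu q hq]
          rintro z (hz | hz)
          · refine ⟨?_, fun h => Set.disjoint_left.1 (hOI p hp) (hPqO h) hz⟩
            have : z ∈ D \ P p := by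
              rw [← hOIu p hp]
              exact Or.inr hz
            exact this.1
          · exact ⟨hPD p hpD hz, fun h => Set.disjoint_left.1 hPP hz h⟩
        have h4 : I p ∪ P p ⊆ I q :=
          hIP.subset_right_of_subset_union (hO q hq) (hI q hq) (hOI q hq) h3
            ⟨x, Or.inl (hAI p hp hxA), hAI q hq hxA⟩
        refine ⟨subset_union_left.trans h4, ?_⟩
        rw [Set.disjoint_left]
        intro z hz hz2
        exact Set.disjoint_left.1 (hOI q hq) hz2 (h4 (Or.inr hz))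
    refine ⟨fun z hz => ?_, fun _ h => ?_⟩
    · have hzD : z ∈ D := by
        have : z ∈ D \ P q := by
          rw [← hOIu q hq]
          exact Or.inl hz
        exact this.1
      have h1 : z ∈ O p ∪ I p := by
        rw [hOIu p hp]
        exact ⟨hzD, fun h => Set.disjoint_left.1 hsub.2 h hz⟩
      exact h1.resolve_right fun h => Set.disjoint_left.1 (hOI q hq) hz (hsub.1 h)
    · have : q ∈ D \ P q := by
        rw [← hOIu q hq]
        exact Or.inl h
      exact this.2 (hself q hqD)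
  by_contra hBA
  obtain ⟨p0, hp0B, hp0A⟩ := Set.not_subset.1 hBA
  -- a minimal outer side
  obtain ⟨M, hM⟩ := zorn_superset {K | ∃ p ∈ B \ P x, K = O p} (by
    intro C hC hch
    rcases C.eq_empty_or_nonempty with rfl | hCne
    · exact ⟨O p0, ⟨p0, ⟨hp0B, hp0A⟩, rfl⟩, fun s hs => absurd hs (by simp)⟩
    · have hcomp : (⋂₀ ((fun K => B ∩ closure K) '' C)).Nonempty := by
        have : Nonempty ((fun K => B ∩ closure K) '' C) := (hCne.image _).to_subtype
        refine IsCompact.nonempty_sInter_of_directed_nonempty_isCompact_isClosed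
          ?_ ?_ ?_ ?_
        · rintro _ ⟨K, hK, rfl⟩ _ ⟨L, hL, rfl⟩
          rcases hch.total hK hL with h | h
          · exact ⟨_, ⟨K, hK, rfl⟩, subset_rfl,
              inter_subset_inter_right _ (closure_mono h)⟩
          · exact ⟨_, ⟨L, hL, rfl⟩, inter_subset_inter_right _ (closure_mono h), subset_rfl⟩
        · rintro _ ⟨K, hK, rfl⟩
          obtain ⟨p, hp, rfl⟩ := hC hK
          exact (hne p hp).mono (inter_subset_inter_right _ subset_closure)
        · rintro _ ⟨K, hK, rfl⟩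
          exact hB.inter_right isClosed_closure
        · rintro _ ⟨K, hK, rfl⟩
          exact hB.isClosed.inter isClosed_closure
      obtain ⟨q, hq⟩ := hcomp
      have hq1 : ∀ K ∈ C, q ∈ B ∩ closure K := fun K hK => hq _ ⟨K, hK, rfl⟩
      have hnotI : ∀ p ∈ B \ P x, q ∈ closure (O p) → q ∉ I p := by
        intro p hp hqc hqI
        obtain ⟨z, hz1, hz2⟩ := mem_closure_iff.1 hqc (I p) (hI p hp) hqI
        exact Set.disjoint_left.1 (hOI p hp) hz2 hz1
      obtain ⟨K0, hK0⟩ := hCne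
      obtain ⟨p1, hp1, hK1⟩ := hC hK0
      have hqB : q ∈ B := (hq1 K0 hK0).1
      have hqA : q ∉ P x := fun h =>
        hnotI p1 hp1 (hK1 ▸ (hq1 K0 hK0).2) (hAI p1 hp1 h)
      refine ⟨O q, ⟨q, ⟨hqB, hqA⟩, rfl⟩, fun K hK => ?_⟩
      obtain ⟨p, hp, rfl⟩ := hC hK
      exact (mono p hp q ⟨hqB, hqA⟩ (hnotI p hp (hq1 _ hK).2)).1)
  obtain ⟨⟨p, hp, rfl⟩, hmin⟩ := hM
  obtain ⟨q, hqB, hqO⟩ := hne p hp
  have hqI : q ∉ I p := fun h => Set.disjoint_left.1 (hOI p hp) hqO h
  have hqA : q ∉ P x := fun h => hqI (hAI p hp h)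
  obtain ⟨h1, h2⟩ := mono p hp q ⟨hqB, hqA⟩ hqI
  exact h2 hqO (hmin ⟨q, ⟨hqB, hqA⟩, rfl⟩ h1 hqO)

end Pool.Agent.H29.CW
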