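import Pool.Agent.H29.CW.Defs

/-!
# MP_c830f0_an, CW-1: elementary facts on `Ws`, `Cs`

`IsPreconnected.subset_connectedComponentIn`, `connectedComponentIn_subset`, `isPreconnected_connectedComponentIn`,
`Continuous.iterate`, `Function.iterate_succ_apply`.  All statements are for `Cs f`; for `Cu f` use `f.symm` (`Cu_eq` is `rfl`).
-/

set_option autoImplicit false

namespace Pool.Agent.H29.CW

open Set Filter Topology Metric

variable {S : Type*} [MetricSpace S] {f : S ≃ₜ S} {a b : ℝ} {x y z : S}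

theorem mem_Ws_self (ha : 0 ≤ a) : x ∈ Ws f a x := by
  intro k
  rw [dist_self]
  exact ha

theorem Ws_mono (hab : a ≤ b) : Ws f a x ⊆ Ws f b x :=
  fun _ hy k => (hy k).trans hab

theorem Ws_comm : y ∈ Ws f a x ↔ x ∈ Ws f a y := by
  constructor
  · intro h k
    rw [dist_comm]
    exact h k
  · intro h k
    rw [dist_comm]
    exact h k

theorem Ws_trans (h1 : y ∈ Ws f a x) (h2 : z ∈ Ws f b y) : z ∈ Ws f (a + b) x := by
  intro k
  have h := dist_triangle ((⇑f)^[k] z) ((⇑f)^[k] y) ((⇑f)^[k] x)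
  have h3 := h1 k
  have h4 := h2 k
  linarith

theorem Ws_dist (h : y ∈ Ws f a x) : dist y x ≤ a := h 0

theorem Ws_closed : IsClosed (Ws f a x) := by
  have h : Ws f a x = ⋂ k : ℕ, {y | dist ((⇑f)^[k] y) ((⇑f)^[k] x) ≤ a} := by
    ext y
    simp only [Ws, mem_setOf_eq, mem_iInter]
  rw [h]
  refine isClosed_iInter fun k => ?_
  exact isClosed_le ((f.continuous.iterate k).dist continuous_const) continuous_const

theorem Ws_image (h : y ∈ Ws f a x) : f y ∈ Ws f a (f x) := by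
  intro k
  have h1 := h (k + 1)
  rw [Function.iterate_succ_apply, Function.iterate_succ_apply] at h1
  exact h1

theorem mem_Cs_self (ha : 0 ≤ a) : x ∈ Cs f a x :=
  mem_connectedComponentIn (mem_Ws_self ha)

theorem Cs_sub_Ws : Cs f a x ⊆ Ws f a x :=
  connectedComponentIn_subset _ _

theorem Cs_preconn : IsPreconnected (Cs f a x) :=
  isPreconnected_connectedComponentIn

/-- a connected component of a closed set is closed -/
theorem Cs_closed : IsClosed (Cs f a x) := by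
  by_cases hx : x ∈ Ws f a x
  · refine isClosed_of_closure_subset ?_
    refine IsPreconnected.subset_connectedComponentIn (Cs_preconn (f := f) (a := a) (x := x)).closure
      (subset_closure (mem_connectedComponentIn hx)) ?_
    exact closure_minimal Cs_sub_Ws Ws_closed
  · have h : Cs f a x = ∅ := connectedComponentIn_eq_empty hx
    rw [h]
    exact isClosed_empty

theorem sub_Cs {A : Set S} (hA : IsPreconnected A) (hx : x ∈ A) (h : A ⊆ Ws f a x) :
    A ⊆ Cs f a x :=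
  hA.subset_connectedComponentIn hx h

theorem Cs_mono (ha : 0 ≤ a) (hab : a ≤ b) : Cs f a x ⊆ Cs f b x :=
  sub_Cs Cs_preconn (mem_Cs_self ha) (Cs_sub_Ws.trans (Ws_mono hab))

theorem Cs_dist (h : y ∈ Cs f a x) : dist y x ≤ a := Ws_dist (Cs_sub_Ws h)

/-- `A` connected, meeting `Cs f a x` in `y`, contained in `Ws f b y` -/
theorem join {A : Set S} (ha : 0 ≤ a) (hb : 0 ≤ b) (hA : IsPreconnected A) (hy : y ∈ A)
    (hyx : y ∈ Cs f a x) (h : A ⊆ Ws f b y) : A ⊆ Cs f (a + b) x := by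
  have h1 : IsPreconnected (Cs f a x ∪ A) := IsPreconnected.union y hyx hy Cs_preconn hA
  have h2 : Cs f a x ∪ A ⊆ Ws f (a + b) x := by
    rintro z (hz | hz)
    · exact Ws_mono (by linarith) (Cs_sub_Ws hz)
    · exact Ws_trans (Cs_sub_Ws hyx) (h hz)
  exact subset_union_right.trans (sub_Cs h1 (Or.inl (mem_Cs_self ha)) h2)

theorem Cs_trans (ha : 0 ≤ a) (hb : 0 ≤ b) (h1 : y ∈ Cs f a x) (h2 : z ∈ Cs f b y) :
    z ∈ Cs f (a + b) x :=
  join ha hb (Cs_preconn (f := f) (a := b) (x := y)) (mem_Cs_self hb) h1 Cs_sub_Ws h2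

/-- a connected subset of `Cs f a x` is contained in `Cs f (2 a) y` for each of its points `y` -/
theorem sub_Cs_two {A : Set S} (hA : IsPreconnected A) (hy : y ∈ A) (h : A ⊆ Cs f a x) :
    A ⊆ Cs f (2 * a) y := by
  refine sub_Cs hA hy fun z hz => ?_
  have h1 : z ∈ Ws f a x := Cs_sub_Ws (h hz)
  have h2 : x ∈ Ws f a y := Ws_comm.mp (Cs_sub_Ws (h hy))
  rw [two_mul]
  exact Ws_trans h2 h1

theorem Cs_comm_two (ha : 0 ≤ a) (h : y ∈ Cs f a x) : x ∈ Cs f (2 * a) y :=
  sub_Cs_two (Cs_preconn (f := f) (a := a) (x := x)) h Subset.rfl (mem_Cs_self ha)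

/-- two points of `Ws f a x` stay at distance `≤ 2 a` -/
theorem Ws_dist_two (h1 : y ∈ Ws f a x) (h2 : z ∈ Ws f a x) (k : ℕ) :
    dist ((⇑f)^[k] y) ((⇑f)^[k] z) ≤ 2 * a := by
  have h := dist_triangle_right ((⇑f)^[k] y) ((⇑f)^[k] z) ((⇑f)^[k] x)
  have h3 := h1 k
  have h4 := h2 k
  linarith

/-- `f (Cs x) ⊆ Cs (f x)` -/
theorem Cs_image (ha : 0 ≤ a) : f '' Cs f a x ⊆ Cs f a (f x) := by
  refine sub_Cs (Cs_preconn.image _ f.continuous.continuousOn)
    (mem_image_of_mem _ (mem_Cs_self ha)) ?_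
  rintro _ ⟨y, hy, rfl⟩
  exact Ws_image (Cs_sub_Ws hy)

theorem Cs_iterate (ha : 0 ≤ a) (k : ℕ) : (⇑f)^[k] '' Cs f a x ⊆ Cs f a ((⇑f)^[k] x) := by
  induction k with
  | zero =>
    rintro _ ⟨y, hy, rfl⟩
    exact hy
  | succ k ih =>
    rintro _ ⟨y, hy, rfl⟩
    rw [Function.iterate_succ_apply', Function.iterate_succ_apply']
    exact Cs_image ha (mem_image_of_mem _ (ih (mem_image_of_mem _ hy)))

end Pool.Agent.H29.CW
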