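import Pool.Agent.H29.CW.T

/-!
# MP_c830f0_an, CW-11a: (M), first part (note 2949)

`expand`: from a nontrivial unstable interval with small backward iterates and three points in a tiny stable continuum, the iterate `M`.
-/

set_option autoImplicit false

namespace Pool.Agent.H29.CW

open Set Filter Topology Metric
open Pool.Agent.H61.PO (IsArc Surf)

variable {S : Type*} [MetricSpace S]

theorem Expand_symm_iter (f : S ≃ₜ S) (m : ℕ) (z : S) :
    (⇑f.symm)^[m] ((⇑f)^[m] z) = z :=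
  (Function.LeftInverse.iterate f.symm_apply_apply m) z

theorem Expand_iter_symm (f : S ≃ₜ S) (m : ℕ) (z : S) :
    (⇑f)^[m] ((⇑f.symm)^[m] z) = z :=
  (Function.LeftInverse.iterate f.apply_symm_apply m) z

omit [MetricSpace S] in
/-- three distinct points -/
theorem Expand_three {A : Set S} (hA : A.Finite) (h : 2 < A.encard) :
    ∃ x ∈ A, ∃ y ∈ A, ∃ z ∈ A, x ≠ y ∧ x ≠ z ∧ y ≠ z := by
  rw [← hA.cast_ncard_eq] at h
  have h1 : 2 < A.ncard := by exact_mod_cast h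
  rw [two_lt_ncard_iff hA] at h1
  obtain ⟨x, y, z, hx, hy, hz, h2, h3, h4⟩ := h1
  exact ⟨x, hx, y, hy, z, hz, h2, h3, h4⟩

/-- backward iterates of `f^m z`, `k ≤ m` -/
theorem Expand_back_le (f : S ≃ₜ S) {k m : ℕ} (hk : k ≤ m) (z : S) :
    (⇑f.symm)^[k] ((⇑f)^[m] z) = (⇑f)^[m - k] z := by
  obtain ⟨j, rfl⟩ := Nat.exists_eq_add_of_le hk
  rw [Nat.add_sub_cancel_left, Function.iterate_add_apply, Expand_symm_iter]

/-- backward iterates of `f^m z`, `m ≤ k` -/
theorem Expand_back_ge (f : S ≃ₜ S) {k m : ℕ} (hk : m ≤ k) (z : S) :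
    (⇑f.symm)^[k] ((⇑f)^[m] z) = (⇑f.symm)^[k - m] z := by
  obtain ⟨j, rfl⟩ := Nat.exists_eq_add_of_le hk
  rw [Nat.add_sub_cancel_left, Nat.add_comm, Function.iterate_add_apply, Expand_symm_iter]

variable [CompactSpace S] {f : S ≃ₜ S} {c : ℝ}

/-- there is `ρ > 0` such that, if for `η > 0` some `Cs f η x ∩ Cu f η x` has more than two points, then there is an unstable interval
`M` of diameter `> ρ`, with end points `a`, `d`, an inner point `b`, with `b, d ∈ Cs f (2 η) a` and `M ⊆ Cu f (c/64) y` for all `y ∈ M` -/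
theorem expand (H : Hyp f c) (hM : Surf S) : ∃ ρ : ℝ, 0 < ρ ∧ ∀ η : ℝ, 0 < η → η ≤ ρ →
    ∀ x : S, 2 < (Cs f η x ∩ Cu f η x).encard →
      ∃ (M : Set S) (a b d : S), IsPreconnected M ∧ IsClosed M ∧ a ∈ M ∧ b ∈ M ∧ d ∈ M ∧
        a ≠ b ∧ d ≠ b ∧ (∀ e ∈ M, IsPreconnected (M \ {e}) → e = a ∨ e = d) ∧
        b ∈ Cs f (2 * η) a ∧ d ∈ Cs f (2 * η) a ∧ a ∈ Cs f (2 * η) b ∧ d ∈ Cs f (2 * η) b ∧
        (∃ y ∈ M, ∃ z ∈ M, ρ ≤ dist y z) ∧ ∀ y ∈ M, M ⊆ Cu f (c / 64) y := by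
  have hc : 0 < c := H.pos
  -- uniform continuity of `f`
  have huc : UniformContinuous (⇑f) := CompactSpace.uniformContinuous_of_continuous f.continuous
  obtain ⟨δ, hδ, hδf⟩ := Metric.uniformContinuous_iff.mp huc (c / 64) (by positivity)
  refine ⟨min δ (c / 128), lt_min hδ (by positivity), fun η hη hηρ x hx => ?_⟩
  set ρ : ℝ := min δ (c / 128) with hρdef
  have hρδ : ρ ≤ δ := min_le_left _ _
  have hρc : ρ ≤ c / 128 := min_le_right _ _
  have hηc : η ≤ c := by linarith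
  have hη2 : 2 * η ≤ c / 64 := by linarith
  have hfin : (Cs f η x ∩ Cu f η x).Finite := by
    refine (H.fin x).subset (inter_subset_inter (Cs_mono hη.le hηc) ?_)
    exact Cs_mono (f := f.symm) hη.le hηc
  obtain ⟨x1, hx1, x2, hx2, x3, hx3, h12, h13, h23⟩ := Expand_three hfin hx
  have hin : InArc (Cu f η x) := (H.arcU x).mono (Cs_mono (f := f.symm) hη.le hηc)
  have hpre : IsPreconnected (Cu f η x) := Cs_preconn (f := f.symm)
  have hclo : IsClosed (Cu f η x) := Cs_closed (f := f.symm)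
  obtain ⟨a, b, d, ha, hb, hd, hab, hdb, had, L, hLA, hLp, hLc, haL, hbL, hdL, hends⟩ :=
    hin.three hpre hclo hx1.2 hx2.2 hx3.2 h12 h13 h23
  have hsub : ({x1, x2, x3} : Set S) ⊆ Cs f η x := by
    rintro y (rfl | rfl | rfl)
    · exact hx1.1
    · exact hx2.1
    · exact hx3.1
  have haS := hsub ha
  have hbS := hsub hb
  have hdS := hsub hd
  -- stable relations
  have hst : ∀ y ∈ Cs f η x, ∀ z ∈ Cs f η x, z ∈ Cs f (2 * η) y := fun y hy z hz =>
    sub_Cs_two (Cs_preconn (f := f)) hy Subset.rfl hz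
  have hstm : ∀ m : ℕ, ∀ y ∈ Cs f η x, ∀ z ∈ Cs f η x,
      (⇑f)^[m] z ∈ Cs f (2 * η) ((⇑f)^[m] y) := fun m y hy z hz =>
    Cs_iterate (f := f) (by linarith) m (mem_image_of_mem _ (hst y hy z hz))
  -- backward iterates of `L`
  have hLu : ∀ k : ℕ, ∀ y ∈ L, ∀ z ∈ L,
      dist ((⇑f.symm)^[k] y) ((⇑f.symm)^[k] z) ≤ 2 * η := fun k y hy z hz =>
    Ws_dist_two (f := f.symm) (Cs_sub_Ws (f := f.symm) (hLA hy)) (Cs_sub_Ws (f := f.symm) (hLA hz)) k
  -- some iterate is large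
  have hex : ∃ m : ℕ, ∃ y ∈ L, ∃ z ∈ L, ρ ≤ dist ((⇑f)^[m] y) ((⇑f)^[m] z) := by
    by_contra hcon
    push Not at hcon
    have hss : L.Subsingleton := by
      refine exp_small H hLp ?_ ?_
      · intro k y hy z hz
        have h := hcon k y hy z hz
        linarith
      · intro k y hy z hz
        have h := hLu k y hy z hz
        linarith
    exact hab (hss haL hbL)
  classical
  obtain ⟨m, hm, hmin⟩ : ∃ m : ℕ, (∃ y ∈ L, ∃ z ∈ L, ρ ≤ dist ((⇑f)^[m] y) ((⇑f)^[m] z)) ∧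
      ∀ k < m, ¬ ∃ y ∈ L, ∃ z ∈ L, ρ ≤ dist ((⇑f)^[k] y) ((⇑f)^[k] z) :=
    ⟨Nat.find hex, Nat.find_spec hex, fun k hk => Nat.find_min hex hk⟩
  have hsmall : ∀ k < m, ∀ y ∈ L, ∀ z ∈ L, dist ((⇑f)^[k] y) ((⇑f)^[k] z) < ρ := by
    intro k hk y hy z hz
    by_contra hcon
    exact hmin k hk ⟨y, hy, z, hz, not_lt.mp hcon⟩
  have hcontm : Continuous ((⇑f)^[m]) := f.continuous.iterate m
  have hMp : IsPreconnected ((⇑f)^[m] '' L) := hLp.image _ hcontm.continuousOn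
  have hMc : IsClosed ((⇑f)^[m] '' L) := (hLc.isCompact.image hcontm).isClosed
  have hinj : Function.Injective ((⇑f)^[m]) := f.injective.iterate m
  refine ⟨(⇑f)^[m] '' L, (⇑f)^[m] a, (⇑f)^[m] b, (⇑f)^[m] d, hMp, hMc,
    mem_image_of_mem _ haL, mem_image_of_mem _ hbL, mem_image_of_mem _ hdL,
    fun h => hab (hinj h), fun h => hdb (hinj h), ?_,
    hstm m a haS b hbS, hstm m a haS d hdS, hstm m b hbS a haS, hstm m b hbS d hdS, ?_, ?_⟩
  · rintro _ ⟨e, he, rfl⟩ hpe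
    have h1 : (⇑f.symm)^[m] '' ((⇑f)^[m] '' L \ {(⇑f)^[m] e}) = L \ {e} := by
      ext z
      constructor
      · rintro ⟨_, ⟨⟨w, hw, rfl⟩, hne⟩, rfl⟩
        rw [Expand_symm_iter]
        exact ⟨hw, fun h => hne (congrArg _ h)⟩
      · rintro ⟨hz, hne⟩
        refine ⟨(⇑f)^[m] z, ⟨mem_image_of_mem _ hz, fun h => hne (hinj h)⟩, ?_⟩
        exact Expand_symm_iter f m z
    have h2 : IsPreconnected (L \ {e}) := by
      rw [← h1]
      exact hpe.image _ (f.symm.continuous.iterate m).continuousOn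
    rcases (hends e he).mp h2 with h | h
    · exact Or.inl (congrArg _ h)
    · exact Or.inr (congrArg _ h)
  · obtain ⟨y, hy, z, hz, hyz⟩ := hm
    exact ⟨_, mem_image_of_mem _ hy, _, mem_image_of_mem _ hz, hyz⟩
  · rintro _ ⟨y, hy, rfl⟩
    refine sub_Cs (f := f.symm) hMp (mem_image_of_mem _ hy) ?_
    rintro _ ⟨z, hz, rfl⟩ k
    rcases Nat.lt_or_ge k m with hk | hk
    · rcases Nat.eq_zero_or_pos k with h0 | h0
      · subst h0
        obtain ⟨j, rfl⟩ : ∃ j, m = j + 1 := ⟨m - 1, by omega⟩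
        have h3 : dist ((⇑f)^[j] z) ((⇑f)^[j] y) < δ :=
          lt_of_lt_of_le (hsmall j (Nat.lt_succ_self j) z hz y hy) hρδ
        have h4 := hδf h3
        rw [Function.iterate_zero, id, id, Function.iterate_succ_apply',
          Function.iterate_succ_apply']
        exact h4.le
      · rw [Expand_back_le f hk.le, Expand_back_le f hk.le]
        have h3 := hsmall (m - k) (by omega) z hz y hy
        linarith
    · rw [Expand_back_ge f hk, Expand_back_ge f hk]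
      have h3 := hLu (k - m) z hz y hy
      linarith

end Pool.Agent.H29.CW
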