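import Pool.Agent.H29.CW.T

/-!
# MP_c830f0_an, CW-6: (F'), (F'') (note 2949)

`two_sides` is (F').  `sides_cut` for the STABLE arc `Cs f (c/8) e = Cu f.symm (c/8) e` (`ns_symm`), `O = univ` or a small ball.  Let `a' ≤ a, c/16`,
`ball e (4 a') ⊆ D`.  `cross` for `f.symm`: points `w1 ∈ V`, `w2 ∈ W` of `Cu f k e` with `k ≤ κ, a', δ(a')/2` (`isolated`).  `G = Cs f a' w1`:
compact, in `D`, misses `τ` (else `w1 ∈ Cs f c e`, `w1 ∈ Cu f k e`, so `w1 = e ∈ τ`, but `w1 ∈ V`), preconnected: `⊆ V`.  `θ = δ(a')/2`.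
The statement records also that `D`, `τ`, `V`, `W` do not depend on `a`.
`not_end` is (F'').
-/

set_option autoImplicit false

namespace Pool.Agent.H29.CW

open Set Filter Topology Metric
open Pool.Agent.H61.PO (IsArc Surf)

variable {S : Type*} [MetricSpace S] [CompactSpace S] {f : S ≃ₜ S} {c : ℝ}

theorem side (H : Hyp f c) (hM : Surf S) {e : S} {D τ V W : Set S} (hD : IsOpen D)
    (heD : e ∈ D) (hτ : τ ⊆ Cs f (c / 8) e) (heτ : e ∈ τ) (hV : IsOpen V) (hW : IsOpen W)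
    (hVW : Disjoint V W) (hu : V ∪ W = D \ τ) (heV : e ∈ closure V) {a : ℝ} (ha : 0 < a) :
    ∃ (θ : ℝ) (G : Set S), 0 < θ ∧ IsCompact G ∧ G ⊆ V ∧
      ∀ x, dist x e < θ → (Cu f a x ∩ G).Nonempty := by
  have hc := H.pos
  obtain ⟨κ, hκ, -, -, hiso⟩ := isolated H e
  obtain ⟨r, hr, hrD⟩ := Metric.isOpen_iff.mp hD e heD
  obtain ⟨a', ha', h1, h2, h3⟩ : ∃ a' : ℝ, 0 < a' ∧ a' ≤ a ∧ a' ≤ c / 16 ∧ a' ≤ r / 4 :=
    ⟨min a (min (c / 16) (r / 4)), lt_min ha (lt_min (by linarith) (by linarith)),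
      min_le_left _ _, (min_le_right _ _).trans (min_le_left _ _),
      (min_le_right _ _).trans (min_le_right _ _)⟩
  obtain ⟨δ, hδ, hlps⟩ := H.lps a' ha'
  obtain ⟨k, hk, h4, h5, h6⟩ : ∃ k : ℝ, 0 < k ∧ k ≤ κ ∧ k ≤ a' ∧ k ≤ δ / 2 :=
    ⟨min κ (min a' (δ / 2)), lt_min hκ (lt_min ha' (by linarith)),
      min_le_left _ _, (min_le_right _ _).trans (min_le_left _ _),
      (min_le_right _ _).trans (min_le_right _ _)⟩
  obtain ⟨w, hw, hwV⟩ : (Cu f k e ∩ V).Nonempty :=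
    cross (f := f.symm) H.symm hM hD heD hτ hV hW hVW hu heV hk
  have hwe : dist w e ≤ k := Cs_dist (f := f.symm) hw
  have hwτ : w ∉ τ := by
    have h : w ∈ D \ τ := hu ▸ Or.inl hwV
    exact h.2
  have hGD : Cs f a' w ⊆ D := by
    intro y hy
    refine hrD (Metric.mem_ball.mpr ?_)
    have h7 : dist y w ≤ a' := Cs_dist hy
    have h8 := dist_triangle y w e
    linarith
  have hGτ : ∀ v ∈ Cs f a' w, v ∉ τ := by
    intro v hv hvτ
    have h7 : w ∈ Cs f (2 * a') v := Cs_comm_two ha'.le hv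
    have h8 : w ∈ Cs f (c / 8 + 2 * a') e := Cs_trans (by linarith) (by linarith) (hτ hvτ) h7
    have h9 : w ∈ Cs f c e := Cs_mono (by linarith) (by linarith) h8
    have h10 : w ∈ Cu f k e ∩ Cs f c e := ⟨hw, h9⟩
    rw [hiso k hk h4] at h10
    rw [mem_singleton_iff] at h10
    exact hwτ (h10 ▸ heτ)
  have hGu : Cs f a' w ⊆ V ∪ W := by
    rw [hu]
    exact fun v hv => ⟨hGD hv, hGτ v hv⟩
  refine ⟨δ / 2, Cs f a' w, by linarith, Cs_closed.isCompact, ?_, ?_⟩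
  · exact (Cs_preconn (f := f) (a := a') (x := w)).subset_left_of_subset_union hV hW hVW hGu
      ⟨w, mem_Cs_self ha'.le, hwV⟩
  · intro x hx
    have h7 : dist w x < δ := by
      have h8 := dist_triangle_right w x e
      linarith
    obtain ⟨z, hz1, hz2⟩ := hlps w x h7
    exact ⟨z, Cs_mono (f := f.symm) ha'.le h1 hz2, hz1⟩

/-- (F') -/
theorem two_sides (H : Hyp f c) (hM : Surf S) {e : S} (he : NS f c e) :
    ∃ D τ V W : Set S, IsOpen D ∧ e ∈ D ∧ τ ⊆ Cs f (c / 8) e ∧ e ∈ τ ∧ IsOpen V ∧ IsOpen W ∧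
      Disjoint V W ∧ V ∪ W = D \ τ ∧ ∀ a : ℝ, 0 < a → ∃ (θ : ℝ) (G G' : Set S), 0 < θ ∧
        IsCompact G ∧ IsCompact G' ∧ G ⊆ V ∧ G' ⊆ W ∧
        ∀ x, dist x e < θ → (Cu f a x ∩ G).Nonempty ∧ (Cu f a x ∩ G').Nonempty := by
  have hc := H.pos
  have hns : ¬ IsPreconnected (Cs f (c / 8) e \ {e}) := ns_symm H hM he
  have harc : InArc (Cs f (c / 8) e) :=
    (H.arcS e).mono (Cs_mono (by linarith) (by linarith))
  obtain ⟨D, τ, V, W, hD, heD, -, hτ, heτ, hV, hW, hVW, hu, heV, heW⟩ :=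
    sides_cut hM harc Cs_preconn Cs_closed hns (O := univ) univ_mem
  refine ⟨D, τ, V, W, hD, heD, hτ, heτ, hV, hW, hVW, hu, fun a ha => ?_⟩
  obtain ⟨θ, G, hθ, hG, hGV, h1⟩ := side H hM hD heD hτ heτ hV hW hVW hu heV ha
  obtain ⟨θ', G', hθ', hG', hGW, h2⟩ :=
    side H hM hD heD hτ heτ hW hV hVW.symm (by rw [union_comm]; exact hu) heW ha
  exact ⟨min θ θ', G, G', lt_min hθ hθ', hG, hG', hGV, hGW, fun x hx =>
    ⟨h1 x (hx.trans_le (min_le_left _ _)), h2 x (hx.trans_le (min_le_right _ _))⟩⟩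

/-- (F'') -/
theorem not_end (H : Hyp f c) (hM : Surf S) {U : Ultrafilter ℕ} (hU : (U : Filter ℕ) ≤ atTop)
    {R : ℕ → Set S} {l : ℕ → S} {l₀ : S} (hl : Tendsto l U (𝓝 l₀))
    (hR : ∀ᶠ n in (U : Filter ℕ), IsPreconnected (R n)) (hns : NS f c l₀) {a : ℝ} (ha : 0 < a)
    (hdeep : ∀ᶠ n in (U : Filter ℕ), Cu f a (l n) ⊆ R n) (hsub : UL U R ⊆ Cu f (c / 8) l₀) :
    ¬ IsPreconnected (UL U R \ {l₀}) := by
  intro hpre
  have hc := H.pos
  obtain ⟨D, τ, V, W, hD, heD, hτ, heτ, hV, hW, hVW, hu, h2s⟩ := two_sides H hM hns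
  obtain ⟨κ, hκ, hκc, -, hiso⟩ := isolated H l₀
  obtain ⟨r, hr, hrD⟩ := Metric.isOpen_iff.mp hD l₀ heD
  obtain ⟨b, hb, h1, h2, h3⟩ : ∃ b : ℝ, 0 < b ∧ b ≤ a ∧ b ≤ κ ∧ b ≤ r / 2 :=
    ⟨min a (min κ (r / 2)), lt_min ha (lt_min hκ (by linarith)),
      min_le_left _ _, (min_le_right _ _).trans (min_le_left _ _),
      (min_le_right _ _).trans (min_le_right _ _)⟩
  obtain ⟨θ, G, G', hθ, hG, hG', hGV, hGW, h4⟩ := h2s b hb
  have hnear : ∀ᶠ n in (U : Filter ℕ), dist (l n) l₀ < θ := by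
    have h := hl (Metric.ball_mem_nhds l₀ hθ)
    exact h
  -- limit points on the two sides
  have key : ∀ K : Set S, IsCompact K → (∀ x, dist x l₀ < θ → (Cu f b x ∩ K).Nonempty) →
      ∃ x₀ ∈ K, x₀ ∈ UL U R ∧ x₀ ∈ Cu f b l₀ := by
    intro K hK hx
    classical
    let x : ℕ → S := fun n => if h : dist (l n) l₀ < θ then (hx (l n) h).some else l n
    have hx1 : ∀ᶠ n in (U : Filter ℕ), x n ∈ Cu f b (l n) ∩ K := by
      filter_upwards [hnear] with n hn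
      have h5 : x n = (hx (l n) hn).some := dif_pos hn
      rw [h5]
      exact (hx (l n) hn).some_mem
    obtain ⟨x₀, hx₀⟩ := exists_lim U x
    refine ⟨x₀, ?_, ?_, ?_⟩
    · exact hK.isClosed.mem_of_tendsto hx₀ (hx1.mono fun n hn => hn.2)
    · refine ⟨x, ?_, hx₀⟩
      filter_upwards [hx1, hdeep] with n hn hn2
      exact hn2 (Cs_mono (f := f.symm) hb.le h1 hn.1)
    · exact Cs_lim (f := f.symm) hU hb.le hl hx₀ (hx1.mono fun n hn => hn.1)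
  obtain ⟨x₀, hx0, hx1, hx2⟩ := key G hG fun x hx => (h4 x hx).1
  obtain ⟨y₀, hy0, hy1, hy2⟩ := key G' hG' fun x hx => (h4 x hx).2
  have hLarc : InArc (UL U R ∪ Cu f b l₀) := by
    refine (H.arcU l₀).mono (union_subset (hsub.trans ?_) ?_)
    · exact Cs_mono (f := f.symm) (by linarith) (by linarith)
    · exact Cs_mono (f := f.symm) hb.le (by linarith)
  have hLpre : IsPreconnected (UL U R) := UL_preconn hU hR
  have hKpre : IsPreconnected (Cu f b l₀) := Cs_preconn (f := f.symm)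
  have hIpre : IsPreconnected (UL U R ∩ Cu f b l₀) := hLarc.inter_preconn hLpre hKpre
  have hcut : IsPreconnected ((UL U R ∩ Cu f b l₀) \ {l₀}) := by
    by_contra hcon
    exact (hLarc.mono subset_union_left).cut_mono inter_subset_left hIpre hLpre hcon hpre
  have hsubD : (UL U R ∩ Cu f b l₀) \ {l₀} ⊆ V ∪ W := by
    rw [hu]
    rintro z ⟨⟨-, hz⟩, hzl⟩
    refine ⟨hrD (Metric.mem_ball.mpr ?_), fun hzτ => hzl ?_⟩
    · have h5 : dist z l₀ ≤ b := Cs_dist (f := f.symm) hz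
      linarith
    · have h5 : z ∈ Cu f b l₀ ∩ Cs f c l₀ :=
        ⟨hz, Cs_mono (by linarith) (by linarith) (hτ hzτ)⟩
      rw [hiso b hb h2] at h5
      exact h5
  have hne : ∀ z ∈ V ∪ W, z ≠ l₀ := by
    intro z hz hzl
    rw [hu] at hz
    exact hz.2 (hzl ▸ heτ)
  have hxV : x₀ ∈ V := hGV hx0
  have hyW : y₀ ∈ W := hGW hy0
  have hall : (UL U R ∩ Cu f b l₀) \ {l₀} ⊆ V :=
    hcut.subset_left_of_subset_union hV hW hVW hsubD
      ⟨x₀, ⟨⟨hx1, hx2⟩, hne x₀ (Or.inl hxV)⟩, hxV⟩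
  have hyV : y₀ ∈ V := hall ⟨⟨hy1, hy2⟩, hne y₀ (Or.inr hyW)⟩
  exact Set.disjoint_left.mp hVW hyV hyW

end Pool.Agent.H29.CW
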