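import Pool.Agent.H29.CW.Dyn

/-!
# MP_c830f0_an, CW-2: limits along an ultrafilter, uniform contraction (note 2949, (0.2)-(0.4))

`exists_lim`: compactness (`isCompact_univ.ultrafilter_le_nhds` for `U.map x`).
`UL_closed`: if `z` is in the closure: for every `m` the set of `n` with `A n ∩ ball z (1/m) ≠ ∅` is in `U`
(take a point `w ∈ UL` near `z`); choose `x n ∈ A n` (if nonempty) with `dist (x n) z ≤ infDist z (A n) + 1/(n+1)` or use that
`infDist (A n) z → 0` along `U`; note that `U` may be principal unless `U ≤ atTop`: choose `x n ∈ A n` with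
`dist (x n) z ≤ 2 * infDist z (A n)` if `infDist > 0`, and `x n` close ... simplest: `z ∈ UL U A ↔ ∀ ε > 0, ∀ᶠ n in U, (A n ∩ ball z ε).Nonempty`
is proved for `U ≤ atTop`.
`UL_preconn`: if `UL = P ∪ Q`, `P`, `Q` closed disjoint nonempty, take disjoint open `V ⊇ P`, `W ⊇ Q` (compact, normal); for `U`-almost all `n`
`A n ⊆ V ∪ W` (otherwise choose `x n ∈ A n \ (V ∪ W)`, its limit is in `UL` and in the closed set `(V ∪ W)ᶜ`) and `A n` meets `V` and `W`.
`Cs_lim`: `UL` of `Cs f a (x n)` is preconnected, contains both limits, is contained in `Ws f a x₀`.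
`contract`: suppose not; for every `n` there are `x n`, `A n`, `k n ≥ n` and `y n, z n ∈ A n` with distance of the images under
`f⁻¹^(k n)` greater than `a`.  `B n = f⁻¹^(k n) '' A n`, preconnected; `UL (hyperfilter ℕ) B` is preconnected, has two points at distance `≥ a`, and for
`i : ℕ` all points of it satisfy `dist (f^i p) (f^i q) ≤ c`, `dist (f⁻¹^i p) (f⁻¹^i q) ≤ c` (for `k n ≥ i` `f^i (B n) = f⁻¹^(k n - i) (A n)`); `exp_small`.
`small`: `N` from `contract`, for `k < N` uniform continuity of `f.symm^[k]`.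
-/

set_option autoImplicit false

namespace Pool.Agent.H29.CW

open Set Filter Topology Metric

variable {S : Type*} [MetricSpace S] [CompactSpace S] {f : S ≃ₜ S} {a b c : ℝ}

theorem exists_lim (U : Ultrafilter ℕ) (x : ℕ → S) : ∃ z, Tendsto x U (𝓝 z) := by
  refine ⟨(U.map x).lim, ?_⟩
  have h := (U.map x).le_nhds_lim
  rw [Ultrafilter.coe_map] at h
  exact h

theorem mem_UL {U : Ultrafilter ℕ} (hU : (U : Filter ℕ) ≤ atTop) {A : ℕ → Set S} {z : S} :
    z ∈ UL U A ↔ ∀ ε > 0, ∀ᶠ n in (U : Filter ℕ), (A n ∩ ball z ε).Nonempty := by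
  constructor
  · rintro ⟨x, hx, hz⟩ ε hε
    filter_upwards [hx, hz.eventually (ball_mem_nhds z hε)] with n h1 h2
    exact ⟨x n, h1, h2⟩
  · intro h
    have h1 : ∀ n : ℕ, ∃ y : S, (A n).Nonempty →
        y ∈ A n ∧ dist z y < infDist z (A n) + 1 / ((n : ℝ) + 1) := by
      intro n
      by_cases hA : (A n).Nonempty
      · have h2 : infDist z (A n) < infDist z (A n) + 1 / ((n : ℝ) + 1) := by
          have : (0 : ℝ) < 1 / ((n : ℝ) + 1) := Nat.one_div_pos_of_nat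
          linarith
        obtain ⟨y, hy, hy2⟩ := (infDist_lt_iff hA).mp h2
        exact ⟨y, fun _ => ⟨hy, hy2⟩⟩
      · exact ⟨z, fun h2 => absurd h2 hA⟩
    choose x hx using h1
    refine ⟨x, ?_, ?_⟩
    · filter_upwards [h 1 one_pos] with n hn
      exact (hx n (hn.mono inter_subset_left)).1
    · rw [Metric.tendsto_nhds]
      intro ε hε
      have h3 : ∀ᶠ n : ℕ in (U : Filter ℕ), 1 / ((n : ℝ) + 1) < ε / 2 := by
        have h4 : ∀ᶠ n : ℕ in atTop, 1 / ((n : ℝ) + 1) < ε / 2 :=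
          (tendsto_one_div_add_atTop_nhds_zero_nat (𝕜 := ℝ)).eventually (gt_mem_nhds (half_pos hε))
        exact hU h4
      filter_upwards [h (ε / 2) (half_pos hε), h3] with n hn hn2
      obtain ⟨y, hy, hyb⟩ := hn
      have h4 := (hx n ⟨y, hy⟩).2
      have h5 : infDist z (A n) ≤ dist z y := infDist_le_dist_of_mem hy
      rw [mem_ball, dist_comm] at hyb
      rw [dist_comm]
      linarith

theorem UL_closed {U : Ultrafilter ℕ} (hU : (U : Filter ℕ) ≤ atTop) (A : ℕ → Set S) :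
    IsClosed (UL U A) := by
  refine isClosed_of_closure_subset fun z hz => ?_
  rw [mem_UL hU]
  intro ε hε
  obtain ⟨w, hw, hzw⟩ := Metric.mem_closure_iff.mp hz (ε / 2) (half_pos hε)
  filter_upwards [(mem_UL hU).mp hw (ε / 2) (half_pos hε)] with n hn
  obtain ⟨y, hy, hyw⟩ := hn
  refine ⟨y, hy, ?_⟩
  have h1 := dist_triangle y w z
  rw [mem_ball] at hyw ⊢
  rw [dist_comm w z] at h1
  linarith

theorem UL_preconn {U : Ultrafilter ℕ} (hU : (U : Filter ℕ) ≤ atTop) {A : ℕ → Set S}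
    (hA : ∀ᶠ n in (U : Filter ℕ), IsPreconnected (A n)) : IsPreconnected (UL U A) := by
  rw [isPreconnected_closed_iff]
  intro t t' ht ht' hsub hne hne'
  by_contra hcon
  have hP : IsClosed (UL U A ∩ t) := (UL_closed hU A).inter ht
  have hQ : IsClosed (UL U A ∩ t') := (UL_closed hU A).inter ht'
  have hPQ : Disjoint (UL U A ∩ t) (UL U A ∩ t') := by
    rw [Set.disjoint_left]
    intro z hz hz'
    exact hcon ⟨z, hz.1, hz.2, hz'.2⟩
  obtain ⟨V, W, hV, hW, hPV, hQW, hVW⟩ := normal_separation hP hQ hPQ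
  have h1 : ∀ᶠ n in (U : Filter ℕ), A n ⊆ V ∪ W := by
    by_contra h2
    rw [← Ultrafilter.eventually_not] at h2
    have h3 : ∀ n : ℕ, ∃ y : S, ¬ (A n ⊆ V ∪ W) → y ∈ A n ∧ y ∉ V ∪ W := by
      intro n
      by_cases hn : A n ⊆ V ∪ W
      · exact ⟨hne.choose, fun h4 => absurd hn h4⟩
      · obtain ⟨y, hy⟩ := Set.not_subset.mp hn
        exact ⟨y, fun _ => hy⟩
    choose x hx using h3
    obtain ⟨z, hz⟩ := exists_lim U x
    have hzU : z ∈ UL U A := ⟨x, h2.mono fun n hn => (hx n hn).1, hz⟩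
    have hzc : z ∈ (V ∪ W)ᶜ := by
      refine (hV.union hW).isClosed_compl.mem_of_tendsto hz ?_
      exact h2.mono fun n hn => (hx n hn).2
    rcases hsub hzU with h | h
    · exact hzc (Or.inl (hPV ⟨hzU, h⟩))
    · exact hzc (Or.inr (hQW ⟨hzU, h⟩))
  have h2 : ∀ (O : Set S), IsOpen O → (UL U A ∩ O).Nonempty →
      ∀ᶠ n in (U : Filter ℕ), (A n ∩ O).Nonempty := by
    rintro O hO ⟨z, ⟨x, hx, hz⟩, hzO⟩
    filter_upwards [hx, hz.eventually (hO.mem_nhds hzO)] with n h3 h4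
    exact ⟨x n, h3, h4⟩
  have h3 := h2 V hV (hne.mono fun z hz => ⟨hz.1, hPV hz⟩)
  have h4 := h2 W hW (hne'.mono fun z hz => ⟨hz.1, hQW hz⟩)
  obtain ⟨n, hn1, hn2, hn3, hn4⟩ := (h1.and (h3.and (h4.and hA))).exists
  obtain ⟨y, _, hy⟩ := hn4 V W hV hW hn1 hn2 hn3
  exact (Set.disjoint_left.mp hVW hy.1) hy.2

theorem Cs_lim {U : Ultrafilter ℕ} (hU : (U : Filter ℕ) ≤ atTop) {x y : ℕ → S} {x₀ y₀ : S}
    (ha : 0 ≤ a) (hx : Tendsto x U (𝓝 x₀)) (hy : Tendsto y U (𝓝 y₀))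
    (h : ∀ᶠ n in (U : Filter ℕ), y n ∈ Cs f a (x n)) : y₀ ∈ Cs f a x₀ := by
  have hC : IsPreconnected (UL U fun n => Cs f a (x n)) :=
    UL_preconn hU (Eventually.of_forall fun _ => Cs_preconn)
  have hx0 : x₀ ∈ UL U fun n => Cs f a (x n) :=
    ⟨x, Eventually.of_forall fun _ => mem_Cs_self ha, hx⟩
  have hy0 : y₀ ∈ UL U fun n => Cs f a (x n) := ⟨y, h, hy⟩
  refine sub_Cs hC hx0 ?_ hy0
  rintro z ⟨w, hw, hz⟩ k
  have h1 : Tendsto (fun n => dist ((⇑f)^[k] (w n)) ((⇑f)^[k] (x n))) U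
      (𝓝 (dist ((⇑f)^[k] z) ((⇑f)^[k] x₀))) :=
    (((f.continuous.iterate k).tendsto z).comp hz).dist
      (((f.continuous.iterate k).tendsto x₀).comp hx)
  exact le_of_tendsto h1 (hw.mono fun n hn => Cs_sub_Ws hn k)

theorem UL_sub_Cs {U : Ultrafilter ℕ} (hU : (U : Filter ℕ) ≤ atTop) {x : ℕ → S} {x₀ : S}
    {A : ℕ → Set S} (ha : 0 ≤ a) (hx : Tendsto x U (𝓝 x₀))
    (h : ∀ᶠ n in (U : Filter ℕ), A n ⊆ Cs f a (x n)) : UL U A ⊆ Cs f a x₀ := by
  rintro z ⟨w, hw, hz⟩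
  refine Cs_lim hU ha hx hz ?_
  filter_upwards [h, hw] with n h1 h2
  exact h1 h2

/-- cw-expansivity at scale `c` -/
theorem exp_small (H : Hyp f c) {A : Set S} (hA : IsPreconnected A)
    (h1 : ∀ k : ℕ, ∀ y ∈ A, ∀ z ∈ A, dist ((⇑f)^[k] y) ((⇑f)^[k] z) ≤ c)
    (h2 : ∀ k : ℕ, ∀ y ∈ A, ∀ z ∈ A, dist ((⇑f.symm)^[k] y) ((⇑f.symm)^[k] z) ≤ c) :
    A.Subsingleton := by
  intro x hx y hy
  by_contra hxy
  have h3 : A ⊆ Cs f c x := sub_Cs hA hx fun z hz k => h1 k z hz x hx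
  have h4 : A ⊆ Cu f c x := sub_Cs (f := f.symm) hA hx fun z hz k => h2 k z hz x hx
  exact hA.infinite_of_nontrivial ⟨x, hx, y, hy, hxy⟩ ((H.fin x).subset (subset_inter h3 h4))

/-- uniform contraction of stable continua under `f` -/
theorem contract (H : Hyp f c) (ha : 0 < a) : ∃ N : ℕ, ∀ (x : S) (A : Set S),
    IsPreconnected A → A ⊆ Cs f (c / 2) x → ∀ k ≥ N, ∀ y ∈ A, ∀ z ∈ A,
      dist ((⇑f)^[k] y) ((⇑f)^[k] z) ≤ a := by
  by_contra hcon
  push Not at hcon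
  choose x A hA hAx k hk y hy z hz hyz using hcon
  set B : ℕ → Set S := fun n => (⇑f)^[k n] '' A n with hB
  set U : Ultrafilter ℕ := hyperfilter ℕ with hU
  have hUt : (U : Filter ℕ) ≤ atTop := Nat.hyperfilter_le_atTop
  have hBp : IsPreconnected (UL U B) :=
    UL_preconn hUt (Eventually.of_forall fun n =>
      (hA n).image _ (f.continuous.iterate (k n)).continuousOn)
  obtain ⟨p, hp⟩ := exists_lim U fun n => (⇑f)^[k n] (y n)
  obtain ⟨q, hq⟩ := exists_lim U fun n => (⇑f)^[k n] (z n)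
  have hpB : p ∈ UL U B := ⟨_, Eventually.of_forall fun n => mem_image_of_mem _ (hy n), hp⟩
  have hqB : q ∈ UL U B := ⟨_, Eventually.of_forall fun n => mem_image_of_mem _ (hz n), hq⟩
  have hpq : a ≤ dist p q :=
    ge_of_tendsto (hp.dist hq) (Eventually.of_forall fun n => (hyz n).le)
  have h1 : ∀ i : ℕ, ∀ u ∈ UL U B, ∀ v ∈ UL U B,
      dist ((⇑f)^[i] u) ((⇑f)^[i] v) ≤ c := by
    rintro i u ⟨u', hu', hu⟩ v ⟨v', hv', hv⟩
    have h2 : Tendsto (fun n => dist ((⇑f)^[i] (u' n)) ((⇑f)^[i] (v' n))) U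
        (𝓝 (dist ((⇑f)^[i] u) ((⇑f)^[i] v))) :=
      (((f.continuous.iterate i).tendsto u).comp hu).dist
        (((f.continuous.iterate i).tendsto v).comp hv)
    refine le_of_tendsto h2 ?_
    filter_upwards [hu', hv'] with n hn1 hn2
    obtain ⟨s, hs, hs'⟩ := hn1
    obtain ⟨t, ht, ht'⟩ := hn2
    rw [← hs', ← ht', ← Function.iterate_add_apply, ← Function.iterate_add_apply]
    have h3 := Ws_dist_two (Cs_sub_Ws (hAx n hs)) (Cs_sub_Ws (hAx n ht)) (i + k n)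
    linarith
  have h2 : ∀ i : ℕ, ∀ u ∈ UL U B, ∀ v ∈ UL U B,
      dist ((⇑f.symm)^[i] u) ((⇑f.symm)^[i] v) ≤ c := by
    rintro i u ⟨u', hu', hu⟩ v ⟨v', hv', hv⟩
    have h2 : Tendsto (fun n => dist ((⇑f.symm)^[i] (u' n)) ((⇑f.symm)^[i] (v' n))) U
        (𝓝 (dist ((⇑f.symm)^[i] u) ((⇑f.symm)^[i] v))) :=
      (((f.symm.continuous.iterate i).tendsto u).comp hu).dist
        (((f.symm.continuous.iterate i).tendsto v).comp hv)
    refine le_of_tendsto h2 ?_
    have h4 : ∀ᶠ n : ℕ in (U : Filter ℕ), i ≤ n := hUt (eventually_ge_atTop i)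
    have h5 : ∀ (j : ℕ) (s : S), (⇑f.symm)^[j] ((⇑f)^[j] s) = s := fun j s =>
      (Function.LeftInverse.iterate f.symm_apply_apply j) s
    filter_upwards [hu', hv', h4] with n hn1 hn2 hn3
    obtain ⟨s, hs, hs'⟩ := hn1
    obtain ⟨t, ht, ht'⟩ := hn2
    have h6 : k n = i + (k n - i) := by
      have := hk n
      omega
    rw [← hs', ← ht', h6, Function.iterate_add_apply, Function.iterate_add_apply, h5, h5]
    have h3 := Ws_dist_two (Cs_sub_Ws (hAx n hs)) (Cs_sub_Ws (hAx n ht)) (k n - i)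
    linarith
  have h3 := exp_small H hBp h1 h2 hpB hqB
  rw [h3, dist_self] at hpq
  exact absurd hpq (not_le.mpr ha)

/-- small stable continua have small forward iterates -/
theorem small (H : Hyp f c) (ha : 0 < a) : ∃ θ : ℝ, 0 < θ ∧ ∀ (x : S) (A : Set S),
    IsPreconnected A → A ⊆ Cs f (c / 2) x → (∀ y ∈ A, ∀ z ∈ A, dist y z ≤ θ) →
      ∀ (k : ℕ), ∀ y ∈ A, ∀ z ∈ A, dist ((⇑f)^[k] y) ((⇑f)^[k] z) ≤ a := by
  obtain ⟨N, hN⟩ := contract (f := f) H ha
  have hg : Continuous fun (y : S) (k : Fin N) => (⇑f)^[(k : ℕ)] y :=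
    continuous_pi fun k => f.continuous.iterate k
  have hgu := CompactSpace.uniformContinuous_of_continuous hg
  obtain ⟨θ, hθ, h1⟩ := Metric.uniformContinuous_iff.mp hgu a ha
  refine ⟨θ / 2, half_pos hθ, fun x A hA hAx hd k y hy z hz => ?_⟩
  by_cases hk : k < N
  · have h2 : dist y z < θ := by
      have := hd y hy z hz
      linarith
    have h3 := h1 h2
    rw [dist_pi_lt_iff ha] at h3
    exact (h3 ⟨k, hk⟩).le
  · exact hN x A hA hAx k (not_lt.mp hk) y hy z hz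

end Pool.Agent.H29.CW
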