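import Pool.Agent.H29.CW.T

/-!
# MP_c830f0_an, CW-10: (E): there is no unstable interval both of whose end points are spines (note 2949)
-/

set_option autoImplicit false

namespace Pool.Agent.H29.CW

open Set Filter Topology Metric
open Pool.Agent.H61.PO (IsArc Surf)

variable {S : Type*} [MetricSpace S] [CompactSpace S] {f : S ≃ₜ S} {c : ℝ}

/-- nonspines are invariant, iterated form -/
theorem ns_iterate (H : Hyp f c) (hM : Surf S) (k : ℕ) :
    ∀ e : S, NS f c ((⇑f.symm)^[k] e) → NS f c e := by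
  induction k with
  | zero =>
    intro e he
    exact he
  | succ k ih =>
    intro e he
    rw [Function.iterate_succ_apply] at he
    exact ns_image H hM (ih _ he)

/-- the backward images of an interval whose end points are spines are whole local unstable sets -/
theorem whole_sub (H : Hyp f c) (hM : Surf S) {z : S} {L : Set S} (hL : IsPreconnected L)
    (hc : IsClosed L) (hn : L.Nontrivial) (hz : z ∈ L) (hLz : L ⊆ Cu f (c / 16) z)
    (hs : ∀ e ∈ L, IsPreconnected (L \ {e}) → ¬ NS f c e) (k : ℕ) :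
    Cu f (c / 16) ((⇑f.symm)^[k] z) ⊆ (⇑f.symm)^[k] '' L := by
  have hp := H.pos
  by_contra hcon
  have hgc : Continuous (⇑f.symm)^[k] := f.symm.continuous.iterate k
  have hgi : Function.Injective (⇑f.symm)^[k] := f.symm.injective.iterate k
  have hgl : ∀ y : S, (⇑f)^[k] ((⇑f.symm)^[k] y) = y :=
    Function.LeftInverse.iterate f.apply_symm_apply k
  have hA : IsPreconnected ((⇑f.symm)^[k] '' L) := hL.image _ hgc.continuousOn
  have hAc : IsClosed ((⇑f.symm)^[k] '' L) := (hc.isCompact.image hgc).isClosed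
  have hAn : ((⇑f.symm)^[k] '' L).Nontrivial := hn.image hgi
  have hAB : (⇑f.symm)^[k] '' L ⊆ Cu f (c / 16) ((⇑f.symm)^[k] z) :=
    (image_mono hLz).trans (Cs_iterate (f := f.symm) (by linarith) k)
  have hun : (⇑f.symm)^[k] '' L ∪ Cu f (c / 16) ((⇑f.symm)^[k] z) =
      Cu f (c / 16) ((⇑f.symm)^[k] z) := union_eq_self_of_subset_left hAB
  have harc : InArc ((⇑f.symm)^[k] '' L ∪ Cu f (c / 16) ((⇑f.symm)^[k] z)) := by
    rw [hun]
    exact (H.arcU _).mono (Cs_mono (f := f.symm) (by linarith) (by linarith))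
  obtain ⟨e, ⟨⟨e0, he0, rfl⟩, heB⟩, h1, h2⟩ := harc.beyond hA hAc hAn
    (Cs_preconn (f := f.symm)) (Cs_closed (f := f.symm))
    ⟨(⇑f.symm)^[k] z, mem_image_of_mem _ hz, mem_Cs_self (f := f.symm) (by linarith)⟩ hcon
  rw [hun] at h2
  have h3 : Cu f (c / 16) ((⇑f.symm)^[k] z) ⊆ Cu f (c / 8) ((⇑f.symm)^[k] e0) := by
    have h4 := sub_Cs_two (f := f.symm) (Cs_preconn (f := f.symm)) heB Subset.rfl
    rw [show 2 * (c / 16) = c / 8 by ring] at h4
    exact h4
  have h4 : NS f c ((⇑f.symm)^[k] e0) := ns_of_cut H (Cs_preconn (f := f.symm)) h3 h2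
  have h5 : IsPreconnected (L \ {e0}) := by
    have h6 := h1.image (⇑f)^[k] (f.continuous.iterate k).continuousOn
    have h7 : (⇑f)^[k] '' ((⇑f.symm)^[k] '' L \ {(⇑f.symm)^[k] e0}) = L \ {e0} := by
      rw [← image_singleton, ← image_sdiff hgi, ← image_comp]
      have h8 : (⇑f)^[k] ∘ (⇑f.symm)^[k] = id := funext hgl
      rw [h8, image_id]
    rw [h7] at h6
    exact h6
  exact hs e0 he0 h5 (ns_iterate H hM k e0 h4)

theorem no_whole (H : Hyp f c) (hM : Surf S) {z : S} {L : Set S} (hL : IsPreconnected L)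
    (hc : IsClosed L) (hn : L.Nontrivial) (hz : z ∈ L) (hLz : L ⊆ Cu f (c / 16) z)
    (hs : ∀ e ∈ L, IsPreconnected (L \ {e}) → ¬ NS f c e) : False := by
  have hp := H.pos
  set U : Ultrafilter ℕ := hyperfilter ℕ with hU
  have hUt : (U : Filter ℕ) ≤ atTop := Nat.hyperfilter_le_atTop
  obtain ⟨x, hx⟩ := exists_lim U fun k => (⇑f.symm)^[k] z
  obtain ⟨δ, hδ, hLPS⟩ := H.lps (c / 16) (by linarith)
  have hLz2 : L ⊆ Cs f.symm (c / 2) z :=
    hLz.trans (Cs_mono (f := f.symm) (by linarith) (by linarith))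
  have key : ball x (δ / 2) ⊆ Cs f (c / 8) x := by
    intro y hy
    rw [mem_ball] at hy
    have hnear : ∀ᶠ k in (U : Filter ℕ), dist ((⇑f.symm)^[k] z) x < δ / 2 :=
      hx.eventually (ball_mem_nhds x (by linarith))
    have hex : ∀ k : ℕ, ∃ w : S, dist ((⇑f.symm)^[k] z) x < δ / 2 →
        w ∈ Cs f (c / 16) y ∩ Cu f (c / 16) ((⇑f.symm)^[k] z) := by
      intro k
      by_cases hk : dist ((⇑f.symm)^[k] z) x < δ / 2
      · have h1 := dist_triangle_right y ((⇑f.symm)^[k] z) x
        obtain ⟨w, hw⟩ := hLPS y ((⇑f.symm)^[k] z) (by linarith)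
        exact ⟨w, fun _ => hw⟩
      · exact ⟨y, fun h => absurd h hk⟩
    choose w hw using hex
    have hwx : Tendsto w U (𝓝 x) := by
      rw [Metric.tendsto_nhds]
      intro ε hε
      obtain ⟨N, hN⟩ := contract (f := f.symm) H.symm (half_pos hε)
      have h4 : ∀ᶠ k : ℕ in (U : Filter ℕ), N ≤ k := hUt (eventually_ge_atTop N)
      have h5 : ∀ᶠ k in (U : Filter ℕ), dist ((⇑f.symm)^[k] z) x < ε / 2 :=
        hx.eventually (ball_mem_nhds x (half_pos hε))
      filter_upwards [hnear, h4, h5] with k h6 h7 h8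
      obtain ⟨u, hu, hu'⟩ := whole_sub H hM hL hc hn hz hLz hs k (hw k h6).2
      have h9 := hN z L hL hLz2 k h7 u hu z hz
      rw [hu'] at h9
      have h10 := dist_triangle (w k) ((⇑f.symm)^[k] z) x
      linarith
    have h11 : x ∈ Cs f (c / 16) y := by
      refine Cs_lim hUt (by linarith) (x := fun _ => y) tendsto_const_nhds hwx ?_
      filter_upwards [hnear] with k h6
      exact (hw k h6).1
    have h12 := Cs_comm_two (f := f) (by linarith) h11
    rw [show 2 * (c / 16) = c / 8 by ring] at h12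
    exact h12
  have hint : interior (Cs f (c / 8) x) = ∅ :=
    InArc.interior_empty hM ((H.arcS x).mono (Cs_mono (by linarith) (by linarith)))
  have h1 : ball x (δ / 2) ⊆ interior (Cs f (c / 8) x) := interior_maximal key isOpen_ball
  rw [hint] at h1
  exact h1 (mem_ball_self (by linarith))

end Pool.Agent.H29.CW
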