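import Pool.Agent.H29.CW.Uniq
import Pool.Agent.H29.CW.Whole
import Pool.Agent.H29.CW.Expand

/-!
# MP_c830f0_an, CW-11: (M) (note 2949)

`expand`: from a nontrivial unstable interval with small backward iterates and three points in a tiny stable continuum, the iterate `M`.
-/

set_option autoImplicit false

namespace Pool.Agent.H29.CW

open Set Filter Topology Metric
open Pool.Agent.H61.PO (IsArc Surf)

variable {S : Type*} [MetricSpace S] [CompactSpace S] {f : S ≃ₜ S} {c : ℝ}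

/-- deep points of `M n` with a nonspine limit see an end point -/
private theorem sees_end (H : Hyp f c) (hM : Surf S) {U : Ultrafilter ℕ}
    (hU : (U : Filter ℕ) ≤ atTop) {M : ℕ → Set S} {a d l : ℕ → S} {l₀ : S}
    (hp : ∀ n, IsPreconnected (M n)) (hcl : ∀ n, IsClosed (M n)) (hnt : ∀ n, (M n).Nontrivial)
    (hend : ∀ n, ∀ e ∈ M n, IsPreconnected (M n \ {e}) → e = a n ∨ e = d n)
    (hsub : ∀ n, ∀ y ∈ M n, M n ⊆ Cu f (c / 64) y) (hl : ∀ᶠ n in (U : Filter ℕ), l n ∈ M n)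
    (hlim : Tendsto l U (𝓝 l₀)) (hns : NS f c l₀) (hcut : IsPreconnected (UL U M \ {l₀}))
    {r : ℝ} (hr : 0 < r) (hrc : r ≤ c) :
    ∀ᶠ n in (U : Filter ℕ), l n ∈ M n ∧ (a n ∈ Cu f r (l n) ∨ d n ∈ Cu f r (l n)) := by
  have hc := H.pos
  have hUL : UL U M ⊆ Cu f (c / 8) l₀ := by
    have h1 : UL U M ⊆ Cu f (c / 64) l₀ := by
      rw [Cu_eq]
      refine UL_sub_Cs hU (by positivity) hlim ?_
      filter_upwards [hl] with n hn
      exact hsub n _ hn
    rw [Cu_eq] at h1 ⊢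
    exact h1.trans (Cs_mono (by positivity) (by linarith))
  have h1 : ¬ ∀ᶠ n in (U : Filter ℕ), Cu f r (l n) ⊆ M n := fun h =>
    not_end H hM hU hlim (Eventually.of_forall hp) hns hr h hUL hcut
  have h2 : ∀ᶠ n in (U : Filter ℕ), ¬ Cu f r (l n) ⊆ M n := by
    rw [← Ultrafilter.eventually_not] at h1
    exact h1
  filter_upwards [h2, hl] with n hn hln
  refine ⟨hln, ?_⟩
  by_contra hcon
  push Not at hcon
  apply hn
  have hself : l n ∈ Cu f r (l n) := by
    rw [Cu_eq]; exact mem_Cs_self hr.le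
  have harc : InArc (M n ∪ Cu f r (l n)) := by
    refine (H.arcU (l n)).mono (union_subset ?_ ?_)
    · refine (hsub n _ hln).trans ?_
      rw [Cu_eq, Cu_eq]
      exact Cs_mono (by positivity) (by linarith)
    · rw [Cu_eq, Cu_eq]
      exact Cs_mono hr.le hrc
  refine harc.sub_of_miss (hp n) (hcl n) (hnt n) ?_ ?_ ⟨l n, hln, hself⟩ ?_
  · rw [Cu_eq]; exact Cs_preconn
  · rw [Cu_eq]; exact Cs_closed
  · intro e he hpe hmem
    rcases hend n e he hpe with rfl | rfl
    · exact hcon.1 hmem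
    · exact hcon.2 hmem

theorem main (H : Hyp f c) (hM : Surf S) : ∃ ε : ℝ, 0 < ε ∧ ∀ x, (Cs f ε x ∩ Cu f ε x).encard ≤ 2 := by
  have hc := H.pos
  by_contra hcon
  push Not at hcon
  obtain ⟨ρ, hρ, hexp⟩ := expand H hM
  set η : ℕ → ℝ := fun n => ρ / (n + 1) with hη
  have hηpos : ∀ n, 0 < η n := fun n => by positivity
  have hηle : ∀ n, η n ≤ ρ := fun n => by
    rw [hη]
    have : (1 : ℝ) ≤ n + 1 := by linarith [Nat.cast_nonneg (α := ℝ) n]
    exact div_le_self hρ.le this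
  have hη0 : Tendsto η atTop (𝓝 0) := by
    have h := tendsto_one_div_add_atTop_nhds_zero_nat (𝕜 := ℝ)
    have h2 := h.const_mul ρ
    simpa [hη, div_eq_mul_inv] using h2
  have hall : ∀ n : ℕ, ∃ (M : Set S) (a b d : S), IsPreconnected M ∧ IsClosed M ∧ a ∈ M ∧ b ∈ M ∧
      d ∈ M ∧ a ≠ b ∧ d ≠ b ∧ (∀ e ∈ M, IsPreconnected (M \ {e}) → e = a ∨ e = d) ∧
        b ∈ Cs f (2 * η n) a ∧ d ∈ Cs f (2 * η n) a ∧ a ∈ Cs f (2 * η n) b ∧
        d ∈ Cs f (2 * η n) b ∧
        (∃ y ∈ M, ∃ z ∈ M, ρ ≤ dist y z) ∧ ∀ y ∈ M, M ⊆ Cu f (c / 64) y := by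
    intro n
    obtain ⟨x, hx⟩ := hcon (η n) (hηpos n)
    exact hexp (η n) (hηpos n) (hηle n) x hx
  choose M a b d hp hcl haM hbM hdM hab hdb hend hba hda hab' hdb' hdiam hsub using hall
  choose y hyM w hwM hyw using hdiam
  set U : Ultrafilter ℕ := hyperfilter ℕ with hUdef
  have hU : (U : Filter ℕ) ≤ atTop := Nat.hyperfilter_le_atTop
  have hηU : Tendsto η U (𝓝 0) := hη0.mono_left hU
  have h2η : Tendsto (fun n => 2 * η n) U (𝓝 0) := by simpa using hηU.const_mul 2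
  obtain ⟨z, hz⟩ := exists_lim U a
  have hclose : ∀ u : ℕ → S, (∀ n, dist (u n) (a n) ≤ 2 * η n) → Tendsto u U (𝓝 z) := by
    intro u hu
    have h1 : Tendsto (fun n => dist (u n) (a n)) U (𝓝 0) :=
      squeeze_zero (fun n => dist_nonneg) hu h2η
    exact (tendsto_iff_of_dist h1).mpr hz
  have hzb : Tendsto b U (𝓝 z) := hclose b fun n => Cs_dist (hba n)
  have hzd : Tendsto d U (𝓝 z) := hclose d fun n => Cs_dist (hda n)
  obtain ⟨y₀, hy₀⟩ := exists_lim U y
  obtain ⟨w₀, hw₀⟩ := exists_lim U w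
  have hyw₀ : ρ ≤ dist y₀ w₀ :=
    ge_of_tendsto (hy₀.dist hw₀) (Eventually.of_forall hyw)
  have hnt : ∀ n, (M n).Nontrivial := fun n => ⟨a n, haM n, b n, hbM n, hab n⟩
  have hzL : z ∈ UL U M := ⟨a, Eventually.of_forall haM, hz⟩
  have hLnt : (UL U M).Nontrivial :=
    ⟨y₀, ⟨y, Eventually.of_forall hyM, hy₀⟩, w₀, ⟨w, Eventually.of_forall hwM, hw₀⟩, by
      rintro rfl
      rw [dist_self] at hyw₀
      linarith⟩
  have hLz : UL U M ⊆ Cu f (c / 16) z := by
    have h1 : UL U M ⊆ Cu f (c / 64) z := by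
      rw [Cu_eq]
      exact UL_sub_Cs hU (by positivity) hz (Eventually.of_forall fun n => hsub n _ (haM n))
    rw [Cu_eq] at h1 ⊢
    exact h1.trans (Cs_mono (by positivity) (by linarith))
  refine no_whole H hM (UL_preconn hU (Eventually.of_forall hp)) (UL_closed hU M) hLnt hzL hLz ?_
  intro l hl hcut hns
  have hlz : l = z := by
    obtain ⟨s, hs, hsl⟩ := hl
    have key : ∀ r : ℝ, 0 < r → r ≤ c → dist z l ≤ r := by
      intro r hr hrc
      have hev := sees_end H hM hU hp hcl hnt hend hsub hs hsl hns hcut hr hrc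
      by_contra hlt
      push Not at hlt
      have h1 : ∀ᶠ n in (U : Filter ℕ), r < dist (a n) (s n) :=
        (hz.dist hsl).eventually_const_lt hlt
      have h2 : ∀ᶠ n in (U : Filter ℕ), r < dist (d n) (s n) :=
        (hzd.dist hsl).eventually_const_lt hlt
      obtain ⟨n, hn, h1n, h2n⟩ := (hev.and (h1.and h2)).exists
      rcases hn.2 with h | h
      · rw [Cu_eq] at h
        exact absurd (Cs_dist h) (not_le.mpr h1n)
      · rw [Cu_eq] at h
        exact absurd (Cs_dist h) (not_le.mpr h2n)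
    have h0 : dist z l ≤ 0 := by
      by_contra hpos
      push Not at hpos
      have h := key (min (dist z l / 2) c) (lt_min (by linarith) hc) (min_le_right _ _)
      have h' := h.trans (min_le_left _ _)
      linarith
    exact (dist_le_zero.mp h0).symm
  subst hlz
  obtain ⟨ρ', hρ', huniq⟩ := uniq H hM hns
  set r := min ρ' c with hr
  have hrpos : 0 < r := lt_min hρ' hc
  have hev := sees_end H hM hU hp hcl hnt hend hsub (Eventually.of_forall hbM) hzb hns hcut
    hrpos (min_le_right _ _)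
  have h1 : ∀ᶠ n in (U : Filter ℕ), 2 * η n < ρ' := h2η.eventually_lt_const hρ'
  have h2 : ∀ᶠ n in (U : Filter ℕ), dist (b n) l < ρ' :=
    (tendsto_iff_dist_tendsto_zero.mp hzb).eventually_lt_const hρ'
  obtain ⟨n, hn, h1n, h2n⟩ := (hev.and (h1.and h2)).exists
  have hηn := hηpos n
  rcases hn.2 with h | h
  · refine hab n (huniq (b n) h2n (a n) ⟨Cs_mono (by linarith) h1n.le (hab' n), ?_⟩)
    rw [Cu_eq] at h ⊢
    exact Cs_mono hrpos.le (min_le_left _ _) h
  · refine hdb n (huniq (b n) h2n (d n) ⟨Cs_mono (by linarith) h1n.le (hdb' n), ?_⟩)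
    rw [Cu_eq] at h ⊢
    exact Cs_mono hrpos.le (min_le_left _ _) h

end Pool.Agent.H29.CW
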