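import Pool.Agent.H29.CW.C

/-!
# MP_c830f0_an, CW-8: plaques in a small disc without spines (note 2949, (U) (i), (ii))

`pl_eq`: `θ` from `small` (for `f.symm`) with `a = c/32`.  `Pl f c D p ⊆ Cu f (c/8) p`, diameter `≤ θ`, so it is contained in `Cu f (c/32) q` and in `D`.
`pl_sides`: `Cu f (c/8) p` is an arc `α '' [s,t]`, `p = α u` with `s < u < t` because `p` is a nonspine; it leaves the disc on both sides of `p`
(otherwise an end point would be a nonspine); the plaque is the part between the exits; `chart_crosscut`.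
-/

set_option autoImplicit false

namespace Pool.Agent.H29.CW

open Set Filter Topology Metric
open Pool.Agent.H61.PO (IsArc Surf)

variable {S : Type*} [MetricSpace S] [CompactSpace S] {f : S ≃ₜ S} {c : ℝ}

/-- a small connected subset of an unstable continuum -/
theorem Plaque_small (H : Hyp f c) : ∃ θ : ℝ, 0 < θ ∧ ∀ (x : S) (A : Set S),
    IsPreconnected A → A ⊆ Cu f (c / 8) x → (∀ y ∈ A, ∀ z ∈ A, dist y z ≤ θ) →
      ∀ q ∈ A, A ⊆ Cu f (c / 32) q := by
  have hc := H.pos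
  obtain ⟨θ, hθ, h⟩ := small (f := f.symm) (a := c / 32) H.symm (by linarith)
  refine ⟨θ, hθ, fun x A hA hAx hd q hq => ?_⟩
  have h1 : A ⊆ Cs f.symm (c / 2) x :=
    hAx.trans (Cs_mono (f := f.symm) (by linarith) (by linarith))
  exact sub_Cs (f := f.symm) hA hq fun y hy k => h x A hA h1 hd k y hy q hq

theorem pl_eq (H : Hyp f c) : ∃ θ : ℝ, 0 < θ ∧ ∀ D : Set S, (∀ x ∈ D, ∀ y ∈ D, dist x y ≤ θ) →
    ∀ p ∈ D, ∀ q ∈ Pl f c D p, Pl f c D q = Pl f c D p := by
  have hc := H.pos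
  obtain ⟨θ, hθ, h⟩ := Plaque_small H
  refine ⟨θ, hθ, fun D hD => ?_⟩
  have hsub : ∀ p, Pl f c D p ⊆ Cu f (c / 8) p ∩ D := fun p => connectedComponentIn_subset _ _
  have key : ∀ p, ∀ q ∈ Pl f c D p, Pl f c D p ⊆ Pl f c D q := by
    intro p q hq
    have hpre : IsPreconnected (Pl f c D p) := isPreconnected_connectedComponentIn
    have h1 : Pl f c D p ⊆ Cu f (c / 32) q :=
      h p _ hpre ((hsub p).trans inter_subset_left)
        (fun y hy z hz => hD y (hsub p hy).2 z (hsub p hz).2) q hq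
    refine hpre.subset_connectedComponentIn hq fun y hy => ⟨?_, (hsub p hy).2⟩
    exact Cs_mono (f := f.symm) (by linarith) (by linarith) (h1 hy)
  intro p hp q hq
  have hpp : p ∈ Pl f c D p :=
    mem_connectedComponentIn ⟨mem_Cs_self (f := f.symm) (by linarith), hp⟩
  exact Subset.antisymm (key q p (key p q hq hpp)) (key p q hq)

/-- first exit time from a disc -/
theorem Plaque_exit {α : ℝ → S} {a b : ℝ} (hab : a ≤ b) (hc : ContinuousOn α (Icc a b))
    {e : ℂ → S} (he : IsOpenEmbedding e) (h0 : α a ∈ e '' ball 0 1) (h1 : α b ∉ e '' ball 0 1) :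
    ∃ t2 : ℝ, a < t2 ∧ t2 ≤ b ∧ (∀ t : ℝ, a ≤ t → t < t2 → α t ∈ e '' ball 0 1) ∧
      α t2 ∈ e '' sphere 0 1 := by
  have hopen : IsOpen (e '' ball 0 1) := he.isOpenMap _ isOpen_ball
  have hclosed : IsClosed (Icc a b ∩ α ⁻¹' (e '' ball 0 1)ᶜ) :=
    hc.preimage_isClosed_of_isClosed isClosed_Icc hopen.isClosed_compl
  have hcomp : IsCompact (Icc a b ∩ α ⁻¹' (e '' ball 0 1)ᶜ) :=
    isCompact_Icc.of_isClosed_subset hclosed inter_subset_left
  have hne : (Icc a b ∩ α ⁻¹' (e '' ball 0 1)ᶜ).Nonempty := ⟨b, ⟨hab, le_rfl⟩, h1⟩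
  obtain ⟨t2, ⟨ht2, hn⟩, hmin⟩ := hcomp.exists_isLeast hne
  have hbelow : ∀ t : ℝ, a ≤ t → t < t2 → α t ∈ e '' ball 0 1 := by
    intro t h0t htt
    by_contra hcon
    exact absurd (hmin ⟨⟨h0t, htt.le.trans ht2.2⟩, hcon⟩) (not_le.2 htt)
  have hpos : a < t2 := by
    rcases ht2.1.eq_or_lt with h | h
    · exfalso
      apply hn
      rw [← h]
      exact h0
    · exact h
  have hclB : IsClosed (e '' closedBall 0 1) :=
    ((isCompact_closedBall (0 : ℂ) 1).image he.continuous).isClosed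
  have hmem : α t2 ∈ e '' closedBall 0 1 := by
    have hcw : ContinuousWithinAt α (Ico a t2) t2 :=
      (hc t2 ht2).mono (fun t ht => ⟨ht.1, ht.2.le.trans ht2.2⟩)
    have hcl : t2 ∈ closure (Ico a t2) := by
      rw [closure_Ico hpos.ne]
      exact ⟨hpos.le, le_rfl⟩
    have h := hcw.mem_closure_image hcl
    refine hclB.closure_subset_iff.2 ?_ h
    rintro _ ⟨t, ht, rfl⟩
    exact image_mono ball_subset_closedBall (hbelow t ht.1 ht.2)
  refine ⟨t2, hpos, ht2.2, hbelow, ?_⟩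
  obtain ⟨z, hz, hze⟩ := hmem
  refine ⟨z, ?_, hze⟩
  rw [mem_closedBall] at hz
  rw [mem_sphere]
  refine le_antisymm hz (not_lt.1 fun hlt' => hn ⟨z, ?_, hze⟩)
  rw [mem_ball]
  exact hlt'

/-- a connected set in an unstable continuum, all of whose iterates are small, does not contain
a nonspine which is an end point of the continuum -/
theorem Plaque_end (H : Hyp f c) (hM : Surf S) {p q : S} {A : Set S} (hp : p ∈ A) (hq : q ∈ A)
    (hsm : ∀ r ∈ A, A ⊆ Cu f (c / 32) r) (hns : NS f c q) :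
    ¬ IsPreconnected (Cu f (c / 8) p \ {q}) := by
  have hc := H.pos
  obtain ⟨κ, hκ, hcut⟩ := cut_u H hM hns
  obtain ⟨k, hk, hk1, hk2⟩ : ∃ k : ℝ, 0 < k ∧ k ≤ κ ∧ k ≤ c / 32 :=
    ⟨min κ (c / 32), lt_min hκ (by linarith), min_le_left _ _, min_le_right _ _⟩
  have h1 : q ∈ Cu f (c / 32) p := hsm p hp hq
  have h2 : Cu f k q ⊆ Cu f (c / 8) p := by
    intro z hz
    have h3 : z ∈ Cu f (c / 32 + k) p :=
      Cs_trans (f := f.symm) (by linarith) hk.le h1 hz
    exact Cs_mono (f := f.symm) (by linarith) (by linarith) h3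
  have harc : InArc (Cu f (c / 8) p) :=
    (H.arcU p).mono (Cs_mono (f := f.symm) (by linarith) (by linarith))
  exact harc.cut_mono h2 (Cs_preconn (f := f.symm)) (Cs_preconn (f := f.symm))
    (hcut k hk hk1)

theorem pl_sides (H : Hyp f c) (hM : Surf S) : ∃ θ : ℝ, 0 < θ ∧ ∀ e : ℂ → S, IsOpenEmbedding e →
    (∀ x ∈ e '' closedBall 0 1, ∀ y ∈ e '' closedBall 0 1, dist x y ≤ θ) →
    (∀ x ∈ e '' closedBall 0 1, NS f c x) → ∀ p ∈ e '' ball 0 1, ∃ V W : Set S,
      IsOpen V ∧ IsOpen W ∧ IsConnected V ∧ IsConnected W ∧ Disjoint V W ∧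
      V ∪ W = e '' ball 0 1 \ Pl f c (e '' ball 0 1) p ∧
      Pl f c (e '' ball 0 1) p ⊆ closure V ∧ Pl f c (e '' ball 0 1) p ⊆ closure W := by
  have hc := H.pos
  obtain ⟨θ, hθ, hsm⟩ := Plaque_small H
  refine ⟨θ, hθ, fun e he hd hns p hp => ?_⟩
  have hbc : e '' ball 0 1 ⊆ e '' closedBall 0 1 := image_mono ball_subset_closedBall
  have hnp : ¬ IsPreconnected (Cu f (c / 8) p \ {p}) := hns p (hbc hp)
  have harc : InArc (Cu f (c / 8) p) :=
    (H.arcU p).mono (Cs_mono (f := f.symm) (by linarith) (by linarith))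
  have hpre : IsPreconnected (Cu f (c / 8) p) := Cs_preconn (f := f.symm)
  have hcl : IsClosed (Cu f (c / 8) p) := Cs_closed (f := f.symm)
  have hpm : p ∈ Cu f (c / 8) p := mem_Cs_self (f := f.symm) (by linarith)
  have hn : (Cu f (c / 8) p).Nontrivial := by
    by_contra hcon
    rw [Set.not_nontrivial_iff] at hcon
    exact hnp (hcon.anti sdiff_subset).isPreconnected
  obtain ⟨α, hα, hi, hs⟩ := harc.par
  obtain ⟨s, t, h0, hst, h1, hAe, hPA⟩ := seg_eq hα hi hs hpre hcl hn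
  have hI : Icc s t ⊆ Icc 0 1 := Icc_subset_Icc h0 h1
  have hseg := (seg_facts hα hi h0 h1 hst).2.2
  rw [← hAe] at hseg
  obtain ⟨u, hu, hup⟩ := hs hpm
  obtain ⟨hsu, hut⟩ : s < u ∧ u < t := by
    rw [← hup] at hnp
    have h2 := (cut_iff hα hi (by rw [hup]; exact hs) (by rw [hup]; exact hpre) hu).1 hnp
    rw [hup, hPA] at h2
    obtain ⟨⟨a, ha, hau⟩, b, hb, hub⟩ := h2
    exact ⟨lt_of_le_of_lt ha.1 hau, lt_of_lt_of_le hub hb.2⟩
  have hum : u ∈ Icc s t := ⟨hsu.le, hut.le⟩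
  have hmem : ∀ v ∈ Icc s t, α v ∈ Cu f (c / 8) p := fun v hv => hAe ▸ mem_image_of_mem α hv
  -- a subarc containing `p` and an end point is not contained in the disc
  have hout : ∀ v w x : ℝ, s ≤ v → w ≤ t → v ≤ u → u ≤ w → x ∈ Icc v w → (x = s ∨ x = t) →
      ¬ ∀ y ∈ Icc v w, α y ∈ e '' ball 0 1 := by
    intro v w x hv hw hvu huw hx hxe hall
    have hvw : Icc v w ⊆ Icc s t := Icc_subset_Icc hv hw
    have hA : IsPreconnected (α '' Icc v w) :=
      isPreconnected_Icc.image α (hα.mono (hvw.trans hI))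
    have hAs : α '' Icc v w ⊆ Cu f (c / 8) p := by
      rintro _ ⟨y, hy, rfl⟩
      exact hmem y (hvw hy)
    have hAD : ∀ y ∈ α '' Icc v w, y ∈ e '' closedBall 0 1 := by
      rintro _ ⟨y, hy, rfl⟩
      exact hbc (hall y hy)
    have hAp : p ∈ α '' Icc v w := ⟨u, ⟨hvu, huw⟩, hup⟩
    have hAx : α x ∈ α '' Icc v w := ⟨x, hx, rfl⟩
    have h3 := hsm p _ hA hAs (fun y hy z hz => hd y (hAD y hy) z (hAD z hz))
    refine Plaque_end H hM hAp hAx h3 (hns _ (hAD _ hAx)) ?_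
    refine (hseg _ (hAs hAx)).2 ?_
    rcases hxe with h | h
    · exact Or.inl (by rw [h])
    · exact Or.inr (by rw [h])
  have hp' : α u ∈ e '' ball 0 1 := by rw [hup]; exact hp
  -- exits
  obtain ⟨b, hub, hbt, hbD⟩ : ∃ b, u ≤ b ∧ b ≤ t ∧ α b ∉ e '' ball 0 1 := by
    by_contra hcon
    push Not at hcon
    exact hout u t t hsu.le le_rfl le_rfl hut.le ⟨hut.le, le_rfl⟩ (Or.inr rfl)
      fun y hy => hcon y hy.1 hy.2
  obtain ⟨a, hau, hsa, haD⟩ : ∃ a, a ≤ u ∧ s ≤ a ∧ α a ∉ e '' ball 0 1 := by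
    by_contra hcon
    push Not at hcon
    exact hout s u s le_rfl hut.le hsu.le le_rfl ⟨le_rfl, hsu.le⟩ (Or.inl rfl)
      fun y hy => hcon y hy.2 hy.1
  obtain ⟨t2, ht2a, ht2b, ht2c, ht2d⟩ := Plaque_exit (α := α) hub
    (hα.mono (Icc_subset_Icc (h0.trans hsu.le) (hbt.trans h1))) he hp' hbD
  obtain ⟨r, hra, hrb, hrc, hrd⟩ := Plaque_exit (α := fun x => α (-x)) (a := -u) (b := -a)
    (by linarith)
    (by
      refine hα.comp continuous_neg.continuousOn ?_
      intro x hx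
      exact ⟨by linarith [hx.2], by linarith [hx.1]⟩)
    he (by show α (- -u) ∈ _; rw [neg_neg]; exact hp')
    (by show α (- -a) ∉ _; rw [neg_neg]; exact haD)
  have hJ : Icc (-r) t2 ⊆ Icc s t := Icc_subset_Icc (by linarith) (by linarith)
  have hrt : -r < t2 := by linarith
  have hin : ∀ x ∈ Ioo (-r) t2, α x ∈ e '' ball 0 1 := by
    intro x hx
    rcases le_or_gt u x with h | h
    · exact ht2c x h hx.2
    · have h5 := hrc (-x) (by linarith) (by linarith [hx.1])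
      simpa using h5
  have huJ : u ∈ Ioo (-r) t2 := ⟨by linarith, ht2a⟩
  have hsph : ∀ x, α x ∈ e '' sphere 0 1 → α x ∉ e '' ball 0 1 := by
    rintro x ⟨z, hz, hze⟩ ⟨w, hw, hwe⟩
    have h6 : z = w := he.injective (hze.trans hwe.symm)
    rw [mem_sphere] at hz
    rw [mem_ball, ← h6] at hw
    exact absurd hz hw.ne
  have hPl : Pl f c (e '' ball 0 1) p = α '' Ioo (-r) t2 := by
    apply Subset.antisymm
    · have hQ : IsPreconnected (Pl f c (e '' ball 0 1) p) := isPreconnected_connectedComponentIn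
      have hQs : Pl f c (e '' ball 0 1) p ⊆ Cu f (c / 8) p ∩ e '' ball 0 1 :=
        connectedComponentIn_subset _ _
      have hpQ : p ∈ Pl f c (e '' ball 0 1) p := mem_connectedComponentIn ⟨hpm, hp⟩
      have hQα : Pl f c (e '' ball 0 1) p ⊆ α '' Icc 0 1 :=
        (hQs.trans inter_subset_left).trans hs
      have hoc := (Prm.pre hα hi hQα).1 hQ
      have huQ : u ∈ Prm α (Pl f c (e '' ball 0 1) p) := ⟨hu, by rw [hup]; exact hpQ⟩
      intro y hy
      obtain ⟨v, hv, rfl⟩ := hQα hy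
      have hvQ : v ∈ Prm α (Pl f c (e '' ball 0 1) p) := ⟨hv, hy⟩
      refine ⟨v, ⟨?_, ?_⟩, rfl⟩
      · by_contra hcon
        have h7 : -r ∈ Prm α (Pl f c (e '' ball 0 1) p) :=
          hoc.out hvQ huQ ⟨not_lt.1 hcon, by linarith⟩
        exact hsph (-r) hrd (hQs h7.2).2
      · by_contra hcon
        have h7 : t2 ∈ Prm α (Pl f c (e '' ball 0 1) p) :=
          hoc.out huQ hvQ ⟨ht2a.le, not_lt.1 hcon⟩
        exact hsph t2 ht2d (hQs h7.2).2
    · refine IsPreconnected.subset_connectedComponentIn ?_ ⟨u, huJ, hup⟩ ?_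
      · exact isPreconnected_Ioo.image α (hα.mono ((Ioo_subset_Icc_self.trans hJ).trans hI))
      · rintro _ ⟨x, hx, rfl⟩
        exact ⟨hmem x (hJ (Ioo_subset_Icc_self hx)), hin x hx⟩
  obtain ⟨V, W, hVo, hWo, hVc, hWc, hVW, hun, hclV, hclW⟩ :=
    chart_crosscut he hrt (hα.mono (hJ.trans hI)) (hi.mono (hJ.trans hI)) hrd ht2d hin
  rw [hPl]
  exact ⟨V, W, hVo, hWo, hVc, hWc, hVW, hun, hclV, hclW⟩

end Pool.Agent.H29.CW
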