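import Pool.Agent.H29.CW.Arc
import Pool.Agent.H61.PO.Local

/-!
# MP_c830f0_an, CW-4: the two sides of an arc near an inner point (note 2949, SIDES)

`crosscut` (`Pool/Agent/H61/PO/CCMain.lean`).  `σ = α '' [0,1]`, `x = α u`, `0 < u < 1`.  `e : ℂ → S` open embedding, `e 0 = x`,
`range e ⊆ O ∩ {α 0, α 1}ᶜ` (`Surf`).  As in the proof of `free_arc` (`Pool/Agent/H61/PO/Local.lean`): `t2` = the least `t ≥ u` with
`α t ∉ e '' ball 0 1`, `t1` = the greatest `t ≤ u` with this property; `t1 < u < t2`, `α t1, α t2 ∈ e '' sphere 0 1`,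
`α t ∈ e '' ball 0 1` for `t1 < t < t2`.  `τ' = e ⁻¹' (α '' [t1,t2])` is an arc in `closedBall 0 1` with `sphere ∩ τ' = {end points}`: `crosscut` with `R = 1`.
`D = e '' ball 0 1`, `τ = α '' (t1,t2)`, `V1 = e '' A`, `V2 = e '' B`.
-/

set_option autoImplicit false

namespace Pool.Agent.H29.CW

open Set Filter Topology Metric
open Pool.Agent.H61.PO (IsArc Surf)

variable {S : Type*} [MetricSpace S]

/-- crosscut theorem in a chart: `e` an open embedding of the plane, `α` a path with `α t1`, `α t2` on the boundary circle and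
`α t` inside for `t1 < t < t2` -/
theorem chart_crosscut {e : ℂ → S} (he : IsOpenEmbedding e) {α : ℝ → S} {t1 t2 : ℝ}
    (ht : t1 < t2) (hc : ContinuousOn α (Icc t1 t2)) (hi : InjOn α (Icc t1 t2))
    (h1 : α t1 ∈ e '' sphere 0 1) (h2 : α t2 ∈ e '' sphere 0 1)
    (h3 : ∀ t ∈ Ioo t1 t2, α t ∈ e '' ball 0 1) :
    ∃ V W : Set S, IsOpen V ∧ IsOpen W ∧ IsConnected V ∧ IsConnected W ∧ Disjoint V W ∧
      V ∪ W = e '' ball 0 1 \ α '' Ioo t1 t2 ∧ α '' Ioo t1 t2 ⊆ closure V ∧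
      α '' Ioo t1 t2 ⊆ closure W := by
  have htri : ∀ u ∈ Icc t1 t2, u = t1 ∨ u = t2 ∨ u ∈ Ioo t1 t2 := by
    intro u hu
    rcases hu.1.eq_or_lt with h | h
    · exact Or.inl h.symm
    · rcases hu.2.eq_or_lt with h' | h'
      · exact Or.inr (Or.inl h')
      · exact Or.inr (Or.inr ⟨h, h'⟩)
  have hcb : ∀ u ∈ Icc t1 t2, α u ∈ e '' closedBall 0 1 := by
    intro u hu
    rcases htri u hu with h | h | h
    · rw [h]
      exact image_mono sphere_subset_closedBall h1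
    · rw [h]
      exact image_mono sphere_subset_closedBall h2
    · exact image_mono ball_subset_closedBall (h3 u h)
  -- the lift
  obtain ⟨β, hβ⟩ : ∃ β : ℝ → ℂ, ∀ u ∈ Icc t1 t2, e (β u) = α u := by
    refine ⟨fun u => Function.invFun e (α u), fun u hu => Function.invFun_eq ?_⟩
    obtain ⟨z, -, hz⟩ := hcb u hu
    exact ⟨z, hz⟩
  have hβc : ContinuousOn β (Icc t1 t2) := by
    rw [he.isInducing.continuousOn_iff]
    exact hc.congr fun u hu => hβ u hu
  have hβi : InjOn β (Icc t1 t2) := by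
    intro u hu v hv huv
    apply hi hu hv
    rw [← hβ u hu, ← hβ v hv, huv]
  have hβb : ∀ u ∈ Ioo t1 t2, β u ∈ ball (0 : ℂ) 1 := by
    intro u hu
    obtain ⟨z, hz, hze⟩ := h3 u hu
    rw [← hβ u ⟨hu.1.le, hu.2.le⟩] at hze
    exact he.injective hze ▸ hz
  have hm1 : t1 ∈ Icc t1 t2 := ⟨le_rfl, ht.le⟩
  have hm2 : t2 ∈ Icc t1 t2 := ⟨ht.le, le_rfl⟩
  have hβ1 : β t1 ∈ sphere (0 : ℂ) 1 := by
    obtain ⟨z, hz, hze⟩ := h1
    rw [← hβ t1 hm1] at hze
    exact he.injective hze ▸ hz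
  have hβ2 : β t2 ∈ sphere (0 : ℂ) 1 := by
    obtain ⟨z, hz, hze⟩ := h2
    rw [← hβ t2 hm2] at hze
    exact he.injective hze ▸ hz
  have hσcb : β '' Icc t1 t2 ⊆ closedBall 0 1 := by
    rintro _ ⟨u, hu, rfl⟩
    rcases htri u hu with rfl | rfl | h
    · exact sphere_subset_closedBall hβ1
    · exact sphere_subset_closedBall hβ2
    · exact ball_subset_closedBall (hβb u h)
  have hS : sphere 0 1 ∩ β '' Icc t1 t2 = {β t1, β t2} := by
    ext z
    constructor
    · rintro ⟨hz, u, hu, rfl⟩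
      rcases htri u hu with rfl | rfl | h
      · exact Or.inl rfl
      · exact Or.inr rfl
      · exfalso
        have h4 := hβb u h
        rw [mem_ball] at h4
        rw [mem_sphere] at hz
        exact absurd hz h4.ne
    · rintro (rfl | rfl)
      · exact ⟨hβ1, ⟨_, hm1, rfl⟩⟩
      · exact ⟨hβ2, ⟨_, hm2, rfl⟩⟩
  have harc : IsArc (β '' Icc t1 t2) (β t1) (β t2) := by
    have hpos : 0 < t2 - t1 := by linarith
    have hmaps : ∀ u ∈ Icc (0 : ℝ) 1, t1 + (t2 - t1) * u ∈ Icc t1 t2 := by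
      intro u hu
      have h1 : 0 ≤ (t2 - t1) * u := mul_nonneg hpos.le hu.1
      have h2 : (t2 - t1) * u ≤ (t2 - t1) * 1 := mul_le_mul_of_nonneg_left hu.2 hpos.le
      exact ⟨by linarith, by linarith⟩
    refine ⟨fun u => β (t1 + (t2 - t1) * u), ?_, ?_, ?_, ?_, ?_⟩
    · refine hβc.comp ?_ hmaps
      exact (continuous_const.add (continuous_const.mul continuous_id)).continuousOn
    · intro u hu v hv huv
      have h := hβi (hmaps u hu) (hmaps v hv) huv
      have h' : (t2 - t1) * u = (t2 - t1) * v := by linarith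
      exact mul_left_cancel₀ hpos.ne' h'
    · ext z
      constructor
      · rintro ⟨u, hu, rfl⟩
        refine ⟨(u - t1) / (t2 - t1), ⟨div_nonneg (by linarith [hu.1]) hpos.le, ?_⟩, ?_⟩
        · rw [div_le_one hpos]
          linarith [hu.2]
        · show β (t1 + (t2 - t1) * ((u - t1) / (t2 - t1))) = β u
          rw [mul_div_cancel₀ _ hpos.ne']
          congr 1
          ring
      · rintro ⟨u, hu, rfl⟩
        exact ⟨_, hmaps u hu, rfl⟩
    · show β (t1 + (t2 - t1) * 0) = β t1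
      rw [mul_zero, add_zero]
    · show β (t1 + (t2 - t1) * 1) = β t2
      congr 1
      ring
  obtain ⟨A, B, hA, hB, hAc, hBc, hAB, hun, hclA, hclB⟩ :=
    Pool.Agent.H61.PO.crosscut one_pos harc hσcb hS
  have hmem : ∀ u ∈ Ioo t1 t2, β u ∈ β '' Icc t1 t2 ∩ ball 0 1 := fun u hu =>
    ⟨⟨u, ⟨hu.1.le, hu.2.le⟩, rfl⟩, hβb u hu⟩
  refine ⟨e '' A, e '' B, he.isOpenMap _ hA, he.isOpenMap _ hB,
    hAc.image e he.continuous.continuousOn, hBc.image e he.continuous.continuousOn,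
    (disjoint_image_iff he.injective).mpr hAB, ?_, ?_, ?_⟩
  · rw [← image_union, hun]
    ext y
    constructor
    · rintro ⟨z, ⟨hz1, hz2⟩, rfl⟩
      refine ⟨⟨z, hz1, rfl⟩, ?_⟩
      rintro ⟨u, hu, hue⟩
      apply hz2
      rw [← hβ u ⟨hu.1.le, hu.2.le⟩] at hue
      exact ⟨u, ⟨hu.1.le, hu.2.le⟩, he.injective hue⟩
    · rintro ⟨⟨z, hz, rfl⟩, hn⟩
      refine ⟨z, ⟨hz, ?_⟩, rfl⟩
      rintro ⟨u, hu, rfl⟩
      rcases htri u hu with rfl | rfl | h
      · rw [mem_ball] at hz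
        rw [mem_sphere] at hβ1
        exact absurd hβ1 hz.ne
      · rw [mem_ball] at hz
        rw [mem_sphere] at hβ2
        exact absurd hβ2 hz.ne
      · exact hn ⟨u, h, (hβ u hu).symm⟩
  · rintro _ ⟨u, hu, rfl⟩
    rw [← hβ u ⟨hu.1.le, hu.2.le⟩]
    exact image_closure_subset_closure_image he.continuous ⟨_, hclA _ (hmem u hu), rfl⟩
  · rintro _ ⟨u, hu, rfl⟩
    rw [← hβ u ⟨hu.1.le, hu.2.le⟩]
    exact image_closure_subset_closure_image he.continuous ⟨_, hclB _ (hmem u hu), rfl⟩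

/-- first exit time from a disc -/
theorem Sides_exit {α : ℝ → S} {a b : ℝ} (hab : a ≤ b) (hc : ContinuousOn α (Icc a b))
    {e : ℂ → S} (he : IsOpenEmbedding e) (h0 : α a = e 0) (h1 : α b ∉ range e) :
    ∃ t2 : ℝ, a < t2 ∧ t2 < b ∧ (∀ t : ℝ, a ≤ t → t < t2 → α t ∈ e '' ball 0 1) ∧
      α t2 ∈ e '' sphere 0 1 := by
  have hopen : IsOpen (e '' ball 0 1) := he.isOpenMap _ isOpen_ball
  have hclosed : IsClosed (Icc a b ∩ α ⁻¹' (e '' ball 0 1)ᶜ) :=
    hc.preimage_isClosed_of_isClosed isClosed_Icc hopen.isClosed_compl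
  have hcomp : IsCompact (Icc a b ∩ α ⁻¹' (e '' ball 0 1)ᶜ) :=
    isCompact_Icc.of_isClosed_subset hclosed inter_subset_left
  have hne : (Icc a b ∩ α ⁻¹' (e '' ball 0 1)ᶜ).Nonempty := by
    refine ⟨b, ⟨hab, le_rfl⟩, ?_⟩
    rintro ⟨z, -, hz⟩
    exact h1 ⟨z, hz⟩
  obtain ⟨t2, ⟨ht2, hn⟩, hmin⟩ := hcomp.exists_isLeast hne
  have hbelow : ∀ t : ℝ, a ≤ t → t < t2 → α t ∈ e '' ball 0 1 := by
    intro t h0t htt
    by_contra hcon
    exact absurd (hmin ⟨⟨h0t, htt.le.trans ht2.2⟩, hcon⟩) (not_le.2 htt)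
  have hpos : a < t2 := by
    rcases ht2.1.eq_or_lt with h | h
    · exfalso
      apply hn
      rw [← h, h0]
      exact ⟨0, mem_ball_self one_pos, rfl⟩
    · exact h
  have hclB : IsClosed (e '' closedBall 0 1) :=
    ((isCompact_closedBall (0 : ℂ) 1).image he.continuous).isClosed
  have hmem : α t2 ∈ e '' closedBall 0 1 := by
    have hcw : ContinuousWithinAt α (Ico a t2) t2 :=
      (hc t2 ht2).mono (fun t ht => ⟨ht.1, ht.2.le.trans ht2.2⟩)
    have hcl : t2 ∈ closure (Ico a t2) := by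
      rw [closure_Ico hpos.ne]
      exact ⟨hpos.le, le_rfl⟩
    have h := hcw.mem_closure_image hcl
    refine hclB.closure_subset_iff.2 ?_ h
    rintro _ ⟨t, ht, rfl⟩
    exact image_mono ball_subset_closedBall (hbelow t ht.1 ht.2)
  have hlt : t2 < b := by
    rcases ht2.2.eq_or_lt with h | h
    · exfalso
      apply h1
      rw [← h]
      exact image_subset_range _ _ hmem
    · exact h
  refine ⟨t2, hpos, hlt, hbelow, ?_⟩
  obtain ⟨z, hz, hze⟩ := hmem
  refine ⟨z, ?_, hze⟩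
  rw [mem_closedBall] at hz
  rw [mem_sphere]
  refine le_antisymm hz (not_lt.1 fun hlt' => hn ⟨z, ?_, hze⟩)
  rw [mem_ball]
  exact hlt'

theorem sides (hM : Surf S) {σ : Set S} {p q x : S} (hσ : IsArc σ p q) (hx : x ∈ σ)
    (hp : x ≠ p) (hq : x ≠ q) {O : Set S} (hO : O ∈ 𝓝 x) :
    ∃ D τ V W : Set S, IsOpen D ∧ x ∈ D ∧ D ⊆ O ∧ τ ⊆ σ ∧ x ∈ τ ∧ IsOpen V ∧ IsOpen W ∧
      Disjoint V W ∧ V ∪ W = D \ τ ∧ x ∈ closure V ∧ x ∈ closure W := by
  obtain ⟨α, hc, hi, rfl, h0, h1⟩ := hσ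
  obtain ⟨u, hu, hux⟩ := hx
  have hu0 : 0 < u := by
    rcases hu.1.eq_or_lt with h | h
    · exfalso
      apply hp
      rw [← hux, ← h, h0]
    · exact h
  have hu1 : u < 1 := by
    rcases hu.2.eq_or_lt with h | h
    · exfalso
      apply hq
      rw [← hux, h, h1]
    · exact h
  have hV : O ∩ {p, q}ᶜ ∈ 𝓝 x := by
    refine inter_mem hO ?_
    have hcl : IsClosed ({p, q} : Set S) := (Set.toFinite _).isClosed
    refine hcl.isOpen_compl.mem_nhds ?_
    rintro (h | h)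
    · exact hp h
    · exact hq h
  obtain ⟨e, he, he0, hrange⟩ := hM x _ hV
  obtain ⟨t2, ht2a, ht2b, ht2c, ht2d⟩ := Sides_exit (α := α) hu1.le
    (hc.mono (Icc_subset_Icc hu0.le le_rfl)) he (hux.trans he0.symm)
    (fun h => (hrange h).2 (Or.inr h1))
  obtain ⟨s, hsa, hsb, hsc, hsd⟩ := Sides_exit (α := fun t => α (-t)) (a := -u) (b := 0)
    (by linarith)
    (by
      refine hc.comp continuous_neg.continuousOn ?_
      intro t ht
      exact ⟨by linarith [ht.2], by linarith [ht.1]⟩)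
    he (by show α (- -u) = e 0; rw [neg_neg]; exact hux.trans he0.symm)
    (by
      intro h
      refine (hrange h).2 (Or.inl ?_)
      show α (-0) = p
      rw [neg_zero]
      exact h0)
  have hI : Icc (-s) t2 ⊆ Icc (0 : ℝ) 1 := Icc_subset_Icc (by linarith) ht2b.le
  have hst : -s < t2 := by linarith
  have hin : ∀ t ∈ Ioo (-s) t2, α t ∈ e '' ball 0 1 := by
    intro t ht
    rcases le_or_gt u t with h | h
    · exact ht2c t h ht.2
    · have h5 := hsc (-t) (by linarith) (by linarith [ht.1])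
      simpa using h5
  obtain ⟨V, W, hVo, hWo, -, -, hVW, hun, hclV, hclW⟩ :=
    chart_crosscut he hst (hc.mono hI) (hi.mono hI) hsd ht2d hin
  have hum : u ∈ Ioo (-s) t2 := ⟨by linarith, ht2a⟩
  refine ⟨e '' ball 0 1, α '' Ioo (-s) t2, V, W, he.isOpenMap _ isOpen_ball,
    ⟨0, mem_ball_self one_pos, he0⟩, ?_, image_mono (Ioo_subset_Icc_self.trans hI),
    ⟨u, hum, hux⟩, hVo, hWo, hVW, hun, hclV ⟨u, hum, hux⟩, hclW ⟨u, hum, hux⟩⟩
  rintro _ ⟨z, -, rfl⟩
  exact (hrange ⟨z, rfl⟩).1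

/-- the same for a closed connected set contained in an arc, and a cut point -/
theorem sides_cut (hM : Surf S) {A : Set S} (hA : InArc A) (hp : IsPreconnected A)
    (hc : IsClosed A) {x : S} (hx : ¬ IsPreconnected (A \ {x})) {O : Set S} (hO : O ∈ 𝓝 x) :
    ∃ D τ V W : Set S, IsOpen D ∧ x ∈ D ∧ D ⊆ O ∧ τ ⊆ A ∧ x ∈ τ ∧ IsOpen V ∧ IsOpen W ∧
      Disjoint V W ∧ V ∪ W = D \ τ ∧ x ∈ closure V ∧ x ∈ closure W := by
  have hn : A.Nontrivial := by
    by_contra hcon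
    rw [Set.not_nontrivial_iff] at hcon
    exact hx (hcon.anti sdiff_subset).isPreconnected
  have hxA : x ∈ A := by
    by_contra hcon
    rw [sdiff_singleton_eq_self hcon] at hx
    exact hx hp
  obtain ⟨p, q, -, harc, hends⟩ := hA.ends hp hc hn
  have h1 := hends x hxA
  have h2 : ¬ (x = p ∨ x = q) := fun h => hx (h1.mpr h)
  push Not at h2
  exact sides hM harc hxA h2.1 h2.2 hO

end Pool.Agent.H29.CW
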