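import Pool.Agent.H29.CW.Lim
import Pool.Agent.H29.CW.Sides

/-!
# MP_c830f0_an, CW-5: (T), (T'), nonspines (note 2949)

`cross` is (T): `V` is one side: `V`, `W` open, disjoint, `V ∪ W = D \ τ`.  Let `a' ≤ a`, `a' ≤ c/16`, `ball e (3 a') ⊆ D`.  Choose `z ∈ V`,
`dist z e < δ(a')`, `dist z e < a'`, `z ∉ Cu f (c/2) e` (`V ∩ ball` is open and nonempty, `InArc.interior_empty`).  `Cu f a' z` misses `τ`: if `v` is in both,
`Cu f (c/8) e ∪ Cu f a' z ⊆ Wu f (c/2) e` (`join` for `f.symm`), so `z ∈ Cu f (c/2) e`.  `Cu f a' z ⊆ D \ τ`, preconnected, contains `z ∈ V`, so `⊆ V`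
(`IsPreconnected.subset_left_of_subset_union`).  `LPS`: a point of `Cs f a' e ∩ Cu f a' z` is in `Cs f a e ∩ V`.
`isolated`: `Cs f c e ∩ Cu f c e` is finite.
`cut_s`: (T'): `sides_cut` for `A = Cu f (c/8) e`; `Cs f k e \ {e}` is contained in `D \ τ` and meets `V` and `W`.
`ns_symm`: `cut_s` for small `k`, `InArc.cut_mono`.
-/

set_option autoImplicit false

namespace Pool.Agent.H29.CW

open Set Filter Topology Metric
open Pool.Agent.H61.PO (IsArc Surf)

variable {S : Type*} [MetricSpace S] [CompactSpace S] {f : S ≃ₜ S} {c : ℝ}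

/-- (T) -/
theorem cross (H : Hyp f c) (hM : Surf S) {e : S} {D τ V W : Set S} (hD : IsOpen D)
    (heD : e ∈ D) (hτ : τ ⊆ Cu f (c / 8) e) (hV : IsOpen V) (hW : IsOpen W)
    (hVW : Disjoint V W) (hu : V ∪ W = D \ τ) (heV : e ∈ closure V) {a : ℝ} (ha : 0 < a) :
    (Cs f a e ∩ V).Nonempty := by
  have hc := H.pos
  obtain ⟨r, hr, hrD⟩ := Metric.isOpen_iff.mp hD e heD
  obtain ⟨b, hb, hba, hbc, hbr⟩ : ∃ b : ℝ, 0 < b ∧ b ≤ a ∧ b ≤ c / 16 ∧ b ≤ r / 3 :=
    ⟨min a (min (c / 16) (r / 3)), lt_min ha (lt_min (by linarith) (by linarith)),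
      min_le_left _ _, (min_le_right _ _).trans (min_le_left _ _),
      (min_le_right _ _).trans (min_le_right _ _)⟩
  obtain ⟨δ, hδ, hLPS⟩ := H.lps b hb
  have hint : interior (Cu f (c / 2) e) = ∅ :=
    InArc.interior_empty hM ((H.arcU e).mono
      (Cs_mono (f := f.symm) (x := e) (by linarith) (by linarith)))
  obtain ⟨z, hzV, hze, hzn⟩ : ∃ z ∈ V, dist z e < min δ b ∧ z ∉ Cu f (c / 2) e := by
    by_contra hcon
    push Not at hcon
    obtain ⟨w, hw1, hw2⟩ := Metric.mem_closure_iff.mp heV (min δ b) (lt_min hδ hb)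
    have hsub : V ∩ ball e (min δ b) ⊆ Cu f (c / 2) e := fun z hz => hcon z hz.1 hz.2
    have h1 : V ∩ ball e (min δ b) ⊆ interior (Cu f (c / 2) e) :=
      interior_maximal hsub (hV.inter isOpen_ball)
    rw [hint] at h1
    exact h1 ⟨hw1, by rw [mem_ball, dist_comm]; exact hw2⟩
  have hzδ : dist z e < δ := hze.trans_le (min_le_left _ _)
  have hzb : dist z e < b := hze.trans_le (min_le_right _ _)
  have hmiss : ∀ v ∈ Cu f b z, v ∉ τ := by
    intro v hv hvτ
    apply hzn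
    have h1 : z ∈ Cs f.symm (2 * b) v := Cs_comm_two (f := f.symm) hb.le hv
    have h2 : z ∈ Cs f.symm (c / 8 + 2 * b) e :=
      Cs_trans (f := f.symm) (by linarith) (by linarith) (hτ hvτ) h1
    exact Cs_mono (f := f.symm) (by linarith) (by linarith) h2
  have hD' : Cu f b z ⊆ V ∪ W := by
    intro v hv
    rw [hu]
    refine ⟨hrD ?_, hmiss v hv⟩
    rw [mem_ball]
    have h1 : dist v z ≤ b := Cs_dist (f := f.symm) hv
    have h2 := dist_triangle v z e
    linarith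
  have hzz : z ∈ Cu f b z := mem_Cs_self (f := f.symm) hb.le
  have hsubV : Cu f b z ⊆ V :=
    IsPreconnected.subset_left_of_subset_union hV hW hVW hD' ⟨z, hzz, hzV⟩
      (Cs_preconn (f := f.symm))
  obtain ⟨y, hy1, hy2⟩ := hLPS e z (by rw [dist_comm]; exact hzδ)
  exact ⟨y, Cs_mono hb.le hba hy1, hsubV hy2⟩

theorem isolated (H : Hyp f c) (e : S) : ∃ κ : ℝ, 0 < κ ∧ κ ≤ c / 16 ∧
    (∀ k, 0 < k → k ≤ κ → Cs f k e ∩ Cu f c e = {e}) ∧
    (∀ k, 0 < k → k ≤ κ → Cu f k e ∩ Cs f c e = {e}) := by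
  have hc := H.pos
  have hfin : ((Cs f c e ∩ Cu f c e) \ {e}).Finite := (H.fin e).subset sdiff_subset
  have hop : IsOpen ((Cs f c e ∩ Cu f c e) \ {e})ᶜ := hfin.isClosed.isOpen_compl
  obtain ⟨r, hr, hrD⟩ := Metric.isOpen_iff.mp hop e (fun h => h.2 rfl)
  have key : ∀ y ∈ Cs f c e ∩ Cu f c e, dist y e < r → y = e := by
    intro y hy hyr
    by_contra hne
    exact hrD (mem_ball.mpr hyr) ⟨hy, hne⟩
  refine ⟨min (c / 16) (r / 2), lt_min (by linarith) (by linarith), min_le_left _ _, ?_, ?_⟩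
  · intro k hk hkκ
    have h1 : k ≤ c / 16 := hkκ.trans (min_le_left _ _)
    have h2 : k ≤ r / 2 := hkκ.trans (min_le_right _ _)
    ext y
    constructor
    · rintro ⟨hy1, hy2⟩
      have h3 : dist y e ≤ k := Cs_dist hy1
      exact key y ⟨Cs_mono hk.le (by linarith) hy1, hy2⟩ (by linarith)
    · rintro rfl
      exact ⟨mem_Cs_self hk.le, mem_Cs_self (f := f.symm) hc.le⟩
  · intro k hk hkκ
    have h1 : k ≤ c / 16 := hkκ.trans (min_le_left _ _)
    have h2 : k ≤ r / 2 := hkκ.trans (min_le_right _ _)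
    ext y
    constructor
    · rintro ⟨hy1, hy2⟩
      have h3 : dist y e ≤ k := Cs_dist (f := f.symm) hy1
      exact key y ⟨hy2, Cs_mono (f := f.symm) hk.le (by linarith) hy1⟩ (by linarith)
    · rintro rfl
      exact ⟨mem_Cs_self (f := f.symm) hk.le, mem_Cs_self hc.le⟩

/-- (T') -/
theorem cut_s (H : Hyp f c) (hM : Surf S) {e : S} (he : NS f c e) : ∃ κ : ℝ, 0 < κ ∧
    ∀ k, 0 < k → k ≤ κ → ¬ IsPreconnected (Cs f k e \ {e}) := by
  have hc := H.pos
  obtain ⟨κ, hκ, hκc, h1, -⟩ := isolated H e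
  have hsub8 : Cu f (c / 8) e ⊆ Cu f c e := Cs_mono (f := f.symm) (by linarith) (by linarith)
  obtain ⟨D, τ, V, W, hD, heD, -, hτ, heτ, hV, hW, hVW, hu, heV, heW⟩ :=
    sides_cut hM ((H.arcU e).mono hsub8) (Cs_preconn (f := f.symm))
      (Cs_closed (f := f.symm)) he (O := univ) univ_mem
  obtain ⟨r, hr, hrD⟩ := Metric.isOpen_iff.mp hD e heD
  refine ⟨min κ (r / 2), lt_min hκ (by linarith), fun k hk hkκ hpre => ?_⟩
  have h2 : k ≤ κ := hkκ.trans (min_le_left _ _)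
  have h3 : k ≤ r / 2 := hkκ.trans (min_le_right _ _)
  have hsub : Cs f k e \ {e} ⊆ V ∪ W := by
    rintro y ⟨hy, hye⟩
    rw [hu]
    refine ⟨hrD ?_, fun hyτ => hye ?_⟩
    · rw [mem_ball]
      have h4 : dist y e ≤ k := Cs_dist hy
      linarith
    · have h4 : y ∈ Cs f k e ∩ Cu f c e := ⟨hy, hsub8 (hτ hyτ)⟩
      rw [h1 k hk h2] at h4
      exact h4
  have heVW : e ∉ V ∪ W := by
    rw [hu]
    exact fun h => h.2 heτ
  obtain ⟨y, hy1, hy2⟩ := cross H hM hD heD hτ hV hW hVW hu heV hk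
  obtain ⟨z, hz1, hz2⟩ := cross H hM hD heD hτ hW hV hVW.symm
    (by rw [union_comm]; exact hu) heW hk
  obtain ⟨w, -, hw1, hw2⟩ := hpre V W hV hW hsub
    ⟨y, ⟨hy1, fun h => heVW (Or.inl (by rw [← mem_singleton_iff.mp h]; exact hy2))⟩, hy2⟩
    ⟨z, ⟨hz1, fun h => heVW (Or.inr (by rw [← mem_singleton_iff.mp h]; exact hz2))⟩, hz2⟩
  exact Set.disjoint_left.mp hVW hw1 hw2

theorem ns_symm (H : Hyp f c) (hM : Surf S) {e : S} (he : NS f c e) : NS f.symm c e := by
  have hc := H.pos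
  obtain ⟨κ, hκ, h⟩ := cut_s H hM he
  have h1 := h (min κ (c / 8)) (lt_min hκ (by linarith)) (min_le_left _ _)
  have hsub8 : Cs f (c / 8) e ⊆ Cs f c e := Cs_mono (by linarith) (by linarith)
  exact InArc.cut_mono ((H.arcS e).mono hsub8)
    (Cs_mono (lt_min hκ (by linarith)).le (min_le_right _ _)) Cs_preconn Cs_preconn h1

/-- a nonspine cuts all small unstable continua -/
theorem cut_u (H : Hyp f c) (hM : Surf S) {e : S} (he : NS f c e) : ∃ κ : ℝ, 0 < κ ∧
    ∀ k, 0 < k → k ≤ κ → ¬ IsPreconnected (Cu f k e \ {e}) :=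
  cut_s H.symm hM (ns_symm H hM he)

/-- (1.1) -/
theorem ns_of_cut (H : Hyp f c) {e : S} {A : Set S} (hA : IsPreconnected A)
    (hAe : A ⊆ Cu f (c / 8) e) (h : ¬ IsPreconnected (A \ {e})) : NS f c e := by
  have hc := H.pos
  have hsub8 : Cu f (c / 8) e ⊆ Cu f c e := Cs_mono (f := f.symm) (by linarith) (by linarith)
  exact InArc.cut_mono ((H.arcU e).mono hsub8) hAe hA (Cs_preconn (f := f.symm)) h

/-- spines are invariant: use `cut_u` and the images of small unstable continua under `f`, resp. `f.symm` -/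
theorem ns_image (H : Hyp f c) (hM : Surf S) {e : S} : NS f c (f.symm e) → NS f c e := by
  intro he
  have hc := H.pos
  obtain ⟨κ, hκ, h⟩ := cut_u H hM he
  obtain ⟨δ, hδ, hcont⟩ := Metric.continuous_iff.mp f.continuous (f.symm e) (c / 8) (by linarith)
  obtain ⟨k, hk, hkκ, hkc, hkδ⟩ : ∃ k : ℝ, 0 < k ∧ k ≤ κ ∧ k ≤ c / 8 ∧ k ≤ δ / 2 :=
    ⟨min κ (min (c / 8) (δ / 2)), lt_min hκ (lt_min (by linarith) (by linarith)),
      min_le_left _ _, (min_le_right _ _).trans (min_le_left _ _),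
      (min_le_right _ _).trans (min_le_right _ _)⟩
  have hfe : f (f.symm e) = e := f.apply_symm_apply e
  have hpre : IsPreconnected (f '' Cu f k (f.symm e)) :=
    (Cs_preconn (f := f.symm)).image _ f.continuous.continuousOn
  have hmem : e ∈ f '' Cu f k (f.symm e) :=
    ⟨f.symm e, mem_Cs_self (f := f.symm) hk.le, hfe⟩
  have hsub : f '' Cu f k (f.symm e) ⊆ Cs f.symm (c / 8) e := by
    refine sub_Cs (f := f.symm) hpre hmem ?_
    rintro _ ⟨y, hy, rfl⟩ j
    have hyW : y ∈ Ws f.symm k (f.symm e) := Cs_sub_Ws (f := f.symm) hy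
    cases j with
    | zero =>
      show dist (f y) e ≤ c / 8
      have h1 : dist y (f.symm e) ≤ k := hyW 0
      have h2 := hcont y (by linarith)
      rw [hfe] at h2
      exact h2.le
    | succ j =>
      rw [Function.iterate_succ_apply, Function.iterate_succ_apply, f.symm_apply_apply]
      exact (hyW j).trans hkc
  refine ns_of_cut H hpre hsub ?_
  have himg : f '' Cu f k (f.symm e) \ {e} = f '' (Cu f k (f.symm e) \ {f.symm e}) := by
    rw [image_sdiff f.injective, image_singleton, hfe]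
  rw [himg, f.isPreconnected_image]
  exact h k hk hkκ

end Pool.Agent.H29.CW
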