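import Pool.Agent.H29.CW.Plaque
import Pool.Agent.H29.CW.Double

/-!
# MP_c830f0_an, CW-9: (U): local uniqueness at nonspines (note 2949)
-/

set_option autoImplicit false

namespace Pool.Agent.H29.CW

open Set Filter Topology Metric
open Pool.Agent.H61.PO (IsArc Surf)

variable {S : Type*} [MetricSpace S] [CompactSpace S] {f : S ≃ₜ S} {c : ℝ}

omit [CompactSpace S] in
theorem cs_sub_of_inner (H : Hyp f c) {x y p : S} {ρ : ℝ} {B : Set S} (hρ : 0 < ρ)
    (hρc : ρ ≤ c / 16) (hBC : B ⊆ Cs f ρ x) (hBp : IsPreconnected B) (hBc : IsClosed B)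
    (hxB : x ∈ B) (hyB : y ∈ B) (hxy : y ≠ x)
    (hends : ∀ e ∈ B, (IsPreconnected (B \ {e}) ↔ e = x ∨ e = y)) (hp : p ∈ B) (hpx : p ≠ x)
    (hpy : p ≠ y) : ∃ a : ℝ, 0 < a ∧ Cs f a p ⊆ B := by
  have hc := H.pos
  have h1 : 0 < dist x p := dist_pos.2 hpx.symm
  have h2 : 0 < dist y p := dist_pos.2 hpy.symm
  obtain ⟨a, ha, hac, hax, hay⟩ : ∃ a : ℝ, 0 < a ∧ a ≤ c / 16 ∧ a < dist x p ∧ a < dist y p :=
    ⟨min (c / 16) (min (dist x p / 2) (dist y p / 2)),
      lt_min (by linarith) (lt_min (by linarith) (by linarith)),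
      min_le_left _ _,
      lt_of_le_of_lt ((min_le_right _ _).trans (min_le_left _ _)) (by linarith),
      lt_of_le_of_lt ((min_le_right _ _).trans (min_le_right _ _)) (by linarith)⟩
  refine ⟨a, ha, ?_⟩
  have h3 : Cs f a p ⊆ Cs f (ρ + a) x :=
    join hρ.le ha.le (Cs_preconn (f := f) (a := a) (x := p)) (mem_Cs_self ha.le) (hBC hp) Cs_sub_Ws
  have h4 : B ∪ Cs f a p ⊆ Cs f c x := by
    refine union_subset (hBC.trans (Cs_mono hρ.le (by linarith))) ?_
    exact h3.trans (Cs_mono (by linarith) (by linarith))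
  refine InArc.sub_of_miss ((H.arcS x).mono h4) hBp hBc ⟨y, hyB, x, hxB, hxy⟩
    (Cs_preconn (f := f) (a := a) (x := p)) Cs_closed ⟨p, hp, mem_Cs_self ha.le⟩ ?_
  intro e he hpre hea
  have h5 : dist e p ≤ a := Cs_dist hea
  rcases (hends e he).1 hpre with rfl | rfl
  · linarith
  · linarith

/-- (U) -/
theorem uniq (H : Hyp f c) (hM : Surf S) {z : S} (hz : NS f c z) : ∃ ρ : ℝ, 0 < ρ ∧
    ∀ x, dist x z < ρ → ∀ y ∈ Cs f ρ x ∩ Cu f ρ x, y = x := by
  have hc := H.pos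
  obtain ⟨θ1, hθ1, hpl⟩ := pl_eq H
  obtain ⟨θ2, hθ2, hsd⟩ := pl_sides H hM
  have hθ : 0 < min θ1 θ2 / 2 := by
    have := lt_min hθ1 hθ2
    linarith
  obtain ⟨e, he, he0, hr⟩ := hM z ({x | NS f c x} ∩ ball z (min θ1 θ2 / 2))
    (((ns_open H hM).inter isOpen_ball).mem_nhds ⟨hz, mem_ball_self hθ⟩)
  have hns : ∀ x ∈ e '' closedBall 0 1, NS f c x := by
    rintro _ ⟨w, -, rfl⟩
    exact (hr ⟨w, rfl⟩).1
  have hdist : ∀ x ∈ range e, ∀ y ∈ range e, dist x y ≤ min θ1 θ2 := by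
    intro x hx y hy
    have h1 : dist x z < min θ1 θ2 / 2 := (hr hx).2
    have h2 : dist y z < min θ1 θ2 / 2 := (hr hy).2
    have h3 := dist_triangle_right x y z
    linarith
  set D : Set S := e '' ball 0 1 with hDdef
  have hDo : IsOpen D := he.isOpenMap _ isOpen_ball
  have hDr : D ⊆ range e := image_subset_range _ _
  have hzD : z ∈ D := ⟨0, mem_ball_self one_pos, he0⟩
  have hPeq : ∀ p ∈ D, ∀ q ∈ Pl f c D p, Pl f c D q = Pl f c D p :=
    hpl D fun x hx y hy => (hdist x (hDr hx) y (hDr hy)).trans (min_le_left _ _)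
  have hside := hsd e he (fun x hx y hy => (hdist x (image_subset_range _ _ hx) y
    (image_subset_range _ _ hy)).trans (min_le_right _ _)) hns
  rw [← hDdef] at hside
  choose! V W hV hW hVc hWc hVW hu hclV hclW using hside
  obtain ⟨r, hr0, hrD⟩ := Metric.isOpen_iff.mp hDo z hzD
  obtain ⟨ρ, hρ, hρr, hρc⟩ : ∃ ρ : ℝ, 0 < ρ ∧ ρ ≤ r / 3 ∧ ρ ≤ c / 16 :=
    ⟨min (r / 3) (c / 16), lt_min (by linarith) (by linarith), min_le_left _ _, min_le_right _ _⟩
  refine ⟨ρ, hρ, ?_⟩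
  rintro x hx y ⟨hys, hyu⟩
  by_contra hyx
  have hball : ∀ w, dist w x ≤ ρ → w ∈ D := by
    intro w hw
    apply hrD
    rw [mem_ball]
    have := dist_triangle w x z
    linarith
  have hxD : x ∈ D := hball x (by rw [dist_self]; exact hρ.le)
  have hPsub : ∀ p, Pl f c D p ⊆ Cu f (c / 8) p ∩ D := fun p => connectedComponentIn_subset _ _
  have hmemP : ∀ p ∈ D, p ∈ Pl f c D p := fun p hp =>
    mem_connectedComponentIn ⟨mem_Cs_self (f := f.symm) (by linarith), hp⟩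
  have hPc : ∀ p ∈ D, IsPreconnected (Pl f c D p) := fun p _ =>
    isPreconnected_connectedComponentIn
  -- `y` is in the plaque of `x`
  have hCuD : Cu f ρ x ⊆ Pl f c D x := by
    refine (Cs_preconn (f := f.symm) (a := ρ) (x := x)).subset_connectedComponentIn
      (mem_Cs_self (f := f.symm) hρ.le) ?_
    intro w hw
    exact ⟨Cs_mono (f := f.symm) hρ.le (by linarith) hw, hball w (Cs_dist (f := f.symm) hw)⟩
  have hyP : y ∈ Pl f c D x := hCuD hyu
  -- the stable arc from `x` to `y`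
  have hInS : InArc (Cs f ρ x) := (H.arcS x).mono (Cs_mono hρ.le (by linarith))
  obtain ⟨B, hBC, hBp, hBc, hxB, hyB, hends⟩ := hInS.sub_arc Cs_preconn Cs_closed
    (mem_Cs_self hρ.le) hys (Ne.symm hyx)
  have hBD : B ⊆ D := fun w hw => hball w (Cs_dist (hBC hw))
  have hsub : B ⊆ Pl f c D x := by
    refine no_double hDo hmemP (fun p _ => (hPsub p).trans inter_subset_right) hPc hPeq hV hW
      hVc hWc hVW hu hclV hclW hBc.isCompact hBD hxD rfl ?_
    rintro p ⟨hpB, hpP⟩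
    have hpD := hBD hpB
    have hpx : p ≠ x := by
      rintro rfl
      exact hpP (hmemP p hpD)
    have hpy : p ≠ y := by
      rintro rfl
      exact hpP hyP
    obtain ⟨a, ha, haB⟩ := cs_sub_of_inner H hρ hρc hBC hBp hBc hxB hyB hyx hends hpB hpx hpy
    constructor
    · obtain ⟨w, hw1, hw2⟩ := cross H hM hDo hpD ((hPsub p).trans inter_subset_left)
        (hV p hpD) (hW p hpD) (hVW p hpD) (hu p hpD) (hclV p hpD (hmemP p hpD)) ha
      exact ⟨w, haB hw1, hw2⟩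
    · obtain ⟨w, hw1, hw2⟩ := cross H hM hDo hpD ((hPsub p).trans inter_subset_left)
        (hW p hpD) (hV p hpD) (hVW p hpD).symm (by rw [union_comm]; exact hu p hpD)
        (hclW p hpD (hmemP p hpD)) ha
      exact ⟨w, haB hw1, hw2⟩
  -- `B` is finite: contradiction
  have hfin : B.Finite := by
    refine (H.fin x).subset fun w hw => ⟨Cs_mono hρ.le (by linarith) (hBC hw), ?_⟩
    exact Cs_mono (f := f.symm) (by linarith) (by linarith) (hPsub x (hsub hw)).1
  exact (hBp.infinite_of_nontrivial ⟨y, hyB, x, hxB, hyx⟩) hfin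

end Pool.Agent.H29.CW
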